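import Pool.Agent.H35.V1.Final

/-!
The lower bound for all large degrees.
-/

namespace Pool.Agent.H35.V1

open Polynomial Finset Filter

noncomputable section

theorem eventually_log_small (A : ℝ) : ∀ᶠ x : ℝ in atTop, A + 7 * Real.log x ≤ x * Real.log 2 := by
  have h1 : ∀ᶠ x : ℝ in atTop, ‖Real.log x‖ ≤ (1 / 20) * ‖x‖ :=
    (Real.isLittleO_log_id_atTop.def (by norm_num : (0 : ℝ) < 1 / 20))
  filter_upwards [h1, eventually_ge_atTop (max 1 (10 * |A|))] with x hx hx2
  have hx1 : 1 ≤ x := (le_max_left _ _).trans hx2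
  have hxA : 10 * |A| ≤ x := (le_max_right _ _).trans hx2
  have h2 : Real.log x ≤ (1 / 20) * x := by
    have := (Real.le_norm_self (Real.log x)).trans hx
    rwa [Real.norm_of_nonneg (by linarith : (0 : ℝ) ≤ x)] at this
  have h3 := Real.log_two_gt_d9
  have h4 := le_abs_self A
  nlinarith

theorem eventually_exp_large (B : ℝ) : ∀ᶠ x : ℝ in atTop, B * x ^ 9 ≤ Real.exp x := by
  have h1 := Real.tendsto_exp_div_pow_atTop 9
  filter_upwards [h1.eventually_ge_atTop B, eventually_gt_atTop 0] with x hx hx0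
  rwa [le_div_iff₀ (by positivity)] at hx

/-- The lower bound for all large `n`. -/
theorem large : ∃ c : ℝ, 0 < c ∧ ∀ᶠ n : ℕ in atTop, ∃ p : ℤ[X], p ≠ 0 ∧ p.natDegree ≤ n ∧
    (∀ i, |p.coeff i| ≤ 1) ∧ ∃ k : ℕ, (X - 1) ^ k ∣ p ∧
      c * Real.sqrt (n * Real.log (Real.log n) / Real.log n) ≤ k := by
  obtain ⟨C, hC0, hC⟩ := exists_prime_lower
  obtain ⟨C2, hC2, hmass⟩ := exists_mass
  set K : ℕ := ⌈120 * C2⌉₊ with hKdef
  have hK : 120 * C2 ≤ K := Nat.le_ceil _
  have hK1 : (1 : ℝ) ≤ K := by linarith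
  have hK0 : 0 < K := by
    have : (0 : ℝ) < K := by linarith
    exact_mod_cast this
  refine ⟨1 / (4 * Real.sqrt K), by positivity, ?_⟩
  have hsqrt : Tendsto (fun n : ℕ => Real.sqrt (Real.log n)) atTop atTop :=
    Real.tendsto_sqrt_atTop.comp (Real.tendsto_log_atTop.comp tendsto_natCast_atTop_atTop)
  have e1 := hsqrt.eventually (eventually_log_small (C + 5 + Real.log (80 * K) + 7 * Real.log 2))
  have e2 := hsqrt.eventually (eventually_exp_large (1764 * K * 2 ^ 9))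
  have e3 := hsqrt.eventually (eventually_ge_atTop (Real.exp 2))
  filter_upwards [e1, e2, e3, eventually_gt_atTop 0] with n h1 h2 h3 hn0
  set L := Real.log n with hL
  set x := Real.sqrt L with hx
  have hn0' : (0 : ℝ) < n := by exact_mod_cast hn0
  have hx7 : 7 < x := by
    have h4 := Real.exp_one_gt_d9
    have h5 : Real.exp 2 = Real.exp 1 * Real.exp 1 := by rw [← Real.exp_add]; norm_num
    nlinarith
  have hLx : L = x ^ 2 := by
    rw [hx, Real.sq_sqrt]
    by_contra hcon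
    push Not at hcon
    rw [hx, Real.sqrt_eq_zero_of_nonpos hcon.le] at hx7
    linarith
  have hL4 : 4 ≤ L := by rw [hLx]; nlinarith
  have hnexp : (n : ℝ) = Real.exp L := (Real.exp_log hn0').symm
  set N0 : ℕ := ⌈x⌉₊ with hN0
  have hxN : x ≤ N0 := Nat.le_ceil _
  have hNx : (N0 : ℝ) ≤ x + 1 := (Nat.ceil_lt_add_one (by linarith)).le
  have hN7 : (7 : ℝ) < N0 := by linarith
  have hN7' : 7 < N0 := by exact_mod_cast hN7
  have hN2x : (N0 : ℝ) ≤ 2 * x := by linarith
  have hN0pos : (0 : ℝ) < N0 := by linarith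
  set S : ℕ := Nat.log 2 N0 with hS
  have hS1 : 1 ≤ S := Nat.log_pos (by norm_num) (by omega)
  have hS2 : 2 ^ S ≤ N0 := Nat.pow_log_le_self 2 (by omega)
  have hSN : S ≤ N0 := (Nat.lt_two_pow_self.le).trans hS2
  have hS1' : (1 : ℝ) ≤ S := by exact_mod_cast hS1
  have hSN' : (S : ℝ) ≤ N0 := by exact_mod_cast hSN
  set D : ℕ := K * N0 ^ 4 * S with hD
  have hD0 : 0 < D := by positivity
  have hD0' : (0 : ℝ) < D := by exact_mod_cast hD0
  set m : ℕ := n / D with hm
  set k0 : ℕ := Nat.sqrt m with hk0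
  set J : ℕ := S * (2 * N0) with hJ
  have hJ0 : 0 < J := by positivity
  have hJ0' : (0 : ℝ) < J := by exact_mod_cast hJ0
  set Q : ℕ := k0 / (5 * J) with hQ
  set y : ℝ := n / D with hy
  have hy0 : 0 < y := div_pos hn0' hD0'
  -- lower bound for `k0`
  have hk0y : y < ((k0 : ℝ) + 1) ^ 2 := by
    have h4 : m + 1 ≤ (k0 + 1) ^ 2 := Nat.lt_succ_sqrt' m
    have h5 : n < D * (m + 1) := Nat.lt_mul_div_succ n hD0
    have h6 : (n : ℝ) < D * ((m : ℝ) + 1) := by exact_mod_cast h5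
    have h7 : (m : ℝ) + 1 ≤ ((k0 : ℝ) + 1) ^ 2 := by exact_mod_cast h4
    rw [hy, div_lt_iff₀ hD0']
    nlinarith
  have hDle : (D : ℝ) ≤ K * N0 ^ 5 := by
    rw [hD]
    push_cast
    calc (K : ℝ) * (N0 : ℝ) ^ 4 * (S : ℝ) ≤ (K : ℝ) * (N0 : ℝ) ^ 4 * (N0 : ℝ) := by
          apply mul_le_mul_of_nonneg_left hSN'
          positivity
      _ = (K : ℝ) * (N0 : ℝ) ^ 5 := by ring
  have hnbig : 1764 * K * (N0 : ℝ) ^ 9 ≤ n := by
    have h4 : (N0 : ℝ) ^ 9 ≤ 2 ^ 9 * x ^ 9 := by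
      rw [← mul_pow]
      exact pow_le_pow_left₀ hN0pos.le hN2x 9
    have h5 : Real.exp x ≤ n := by
      rw [hnexp]
      apply Real.exp_le_exp.2
      rw [hLx]
      nlinarith
    calc 1764 * K * (N0 : ℝ) ^ 9 ≤ 1764 * K * (2 ^ 9 * x ^ 9) := by
          apply mul_le_mul_of_nonneg_left h4
          positivity
      _ = 1764 * K * 2 ^ 9 * x ^ 9 := by ring
      _ ≤ Real.exp x := h2
      _ ≤ n := h5
  have hybig : (42 * (N0 : ℝ) ^ 2) ^ 2 ≤ y := by
    rw [hy, le_div_iff₀ hD0']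
    calc (42 * (N0 : ℝ) ^ 2) ^ 2 * D ≤ (42 * (N0 : ℝ) ^ 2) ^ 2 * (K * N0 ^ 5) := by
          apply mul_le_mul_of_nonneg_left hDle
          positivity
      _ = 1764 * K * (N0 : ℝ) ^ 9 := by ring
      _ ≤ n := hnbig
  have hk0big : 42 * (N0 : ℝ) ^ 2 < k0 + 1 := by
    have h4 : (42 * (N0 : ℝ) ^ 2) ^ 2 < ((k0 : ℝ) + 1) ^ 2 := lt_of_le_of_lt hybig hk0y
    exact lt_of_pow_lt_pow_left₀ 2 (by positivity) h4
  have hN02 : 49 ≤ (N0 : ℝ) ^ 2 := by nlinarith
  have hJle : (J : ℝ) ≤ 2 * N0 ^ 2 := by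
    rw [hJ]
    push_cast
    nlinarith
  have hk0J : 20 * (J : ℝ) ≤ k0 := by nlinarith
  have hk0pos : (0 : ℝ) < k0 := by linarith
  have hk0pos' : 0 < k0 := by exact_mod_cast hk0pos
  have hk0half : y ≤ 4 * (k0 : ℝ) ^ 2 := by
    have h4 : (1 : ℝ) ≤ k0 := by exact_mod_cast hk0pos'
    nlinarith
  have hQlow : (k0 : ℝ) / (10 * J) ≤ Q := by
    have h4 : k0 < (5 * J) * (k0 / (5 * J) + 1) := Nat.lt_mul_div_succ k0 (by omega)
    rw [← hQ] at h4
    have h5 : (k0 : ℝ) < (5 * J) * ((Q : ℝ) + 1) := by exact_mod_cast h4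
    rw [div_le_iff₀ (by positivity)]
    nlinarith
  have hQpos : (0 : ℝ) < Q := lt_of_lt_of_le (by positivity) hQlow
  have hQpos' : 0 < Q := by exact_mod_cast hQpos
  have hkn : k0 ^ 2 * (K * N0 ^ 4 * S) ≤ n := by
    calc k0 ^ 2 * (K * N0 ^ 4 * S) ≤ m * D := Nat.mul_le_mul_right _ (Nat.sqrt_le' m)
      _ ≤ n := Nat.div_mul_le_self n D
  have hH2 : L - Real.log k0 - Real.log Q + C + 5 ≤ N0 * Real.log 2 := by
    have h4 : y / (40 * J) ≤ k0 * Q := by
      calc y / (40 * J) ≤ (4 * (k0 : ℝ) ^ 2) / (40 * J) :=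
            div_le_div_of_nonneg_right hk0half (by positivity)
        _ = k0 * (k0 / (10 * J)) := by
            field_simp
            ring
        _ ≤ k0 * Q := mul_le_mul_of_nonneg_left hQlow hk0pos.le
    have h5 : (n : ℝ) / (80 * K * N0 ^ 7) ≤ y / (40 * J) := by
      rw [hy, div_div]
      apply div_le_div_of_nonneg_left hn0'.le (by positivity)
      calc (D : ℝ) * (40 * J) ≤ (K * N0 ^ 5) * (40 * (2 * N0 ^ 2)) := by
            apply mul_le_mul hDle _ (by positivity) (by positivity)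
            linarith
        _ = 80 * K * N0 ^ 7 := by ring
    have h6 := Real.log_le_log (by positivity) (h5.trans h4)
    rw [Real.log_div hn0'.ne' (by positivity), Real.log_mul hk0pos.ne' hQpos.ne',
      Real.log_mul (by positivity) (by positivity), Real.log_pow] at h6
    have h7 : Real.log N0 ≤ Real.log 2 + Real.log x := by
      rw [← Real.log_mul (by norm_num) (by linarith)]
      exact Real.log_le_log hN0pos hN2x
    have h8 : x * Real.log 2 ≤ N0 * Real.log 2 :=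
      mul_le_mul_of_nonneg_right hxN (Real.log_nonneg (by norm_num))
    push_cast at h6
    linarith
  obtain ⟨p, hp0, hpdeg, hpc, hpd⟩ := core hC hC2 hmass hK (by omega) hS1 hS2 hL4 hxN hNx
    (Nat.mul_div_le k0 (5 * J)) hk0pos' hQpos' hkn hH2
  refine ⟨p, hp0, hpdeg, hpc, _, hpd, ?_⟩
  -- the final estimate
  have hlogN : (1 / 2) * Real.log L ≤ Real.log N0 := by
    have h4 : Real.log L = 2 * Real.log x := by
      rw [hLx, Real.log_pow]
      push_cast
      ring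
    rw [h4]
    have := Real.log_le_log (by linarith) hxN
    linarith
  have hSlow : Real.log L ≤ 4 * S := by
    have h4 : N0 < 2 ^ (S + 1) := Nat.lt_pow_succ_log_self (by norm_num) N0
    have h5 : (N0 : ℝ) < 2 ^ (S + 1) := by exact_mod_cast h4
    have h6 := Real.log_lt_log hN0pos h5
    rw [Real.log_pow] at h6
    push_cast at h6
    have h7 := Real.log_two_lt_d9
    have h8 : Real.log 2 ≤ 0.7 := by linarith
    have h9 : ((S : ℝ) + 1) * Real.log 2 ≤ ((S : ℝ) + 1) * 0.7 :=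
      mul_le_mul_of_nonneg_left h8 (by linarith)
    linarith
  have hlogL0 : 0 ≤ Real.log L := Real.log_nonneg (by linarith)
  have hsq : 1 / (4 * Real.sqrt K) * Real.sqrt (n * Real.log L / L)
      = Real.sqrt (n * Real.log L / (16 * K * L)) := by
    have h4 : 4 * Real.sqrt K = Real.sqrt (16 * K) := by
      rw [Real.sqrt_mul (by norm_num), show (16 : ℝ) = 4 ^ 2 by norm_num,
        Real.sqrt_sq (by norm_num)]
    rw [h4, one_div, ← Real.sqrt_inv, ← Real.sqrt_mul (by positivity)]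
    congr 1
    field_simp
  rw [hsq]
  apply Real.sqrt_le_iff.2
  constructor
  · positivity
  · have hLpos : 0 < L := by linarith
    rw [div_le_iff₀ (by positivity)]
    have h4 : (n : ℝ) = y * D := by
      rw [hy, div_mul_cancel₀ _ hD0'.ne']
    have hNL : (N0 : ℝ) ^ 2 ≤ 4 * L := by
      rw [hLx]
      nlinarith
    have hDr : (D : ℝ) = K * N0 ^ 4 * S := by rw [hD]; push_cast; ring
    have hJr : ((k0 * (S * (2 * N0)) : ℕ) : ℝ) = k0 * (S * (2 * N0)) := by push_cast; ring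
    rw [hJr]
    calc (n : ℝ) * Real.log L ≤ n * (4 * S) := mul_le_mul_of_nonneg_left hSlow hn0'.le
      _ = y * D * (4 * S) := by rw [h4]
      _ ≤ (4 * (k0 : ℝ) ^ 2) * D * (4 * S) := by
          apply mul_le_mul_of_nonneg_right _ (by linarith)
          exact mul_le_mul_of_nonneg_right hk0half hD0'.le
      _ = 4 * k0 ^ 2 * S ^ 2 * (N0 : ℝ) ^ 2 * (4 * K * N0 ^ 2) := by rw [hDr]; ring
      _ ≤ 4 * k0 ^ 2 * S ^ 2 * (N0 : ℝ) ^ 2 * (4 * K * (4 * L)) := by
          apply mul_le_mul_of_nonneg_left _ (by positivity)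
          apply mul_le_mul_of_nonneg_left hNL (by positivity)
      _ = (k0 * (S * (2 * N0))) ^ 2 * (16 * K * L) := by ring

end

end Pool.Agent.H35.V1
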