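import Pool.Agent.H35.V1.Defs

/-!
Norms of cyclotomic polynomials at roots of unity.
-/

namespace Pool.Agent.H35.V1

open Polynomial Finset

noncomputable section

theorem Nm_mul (q : ℕ) (A B : ℤ[X]) : Nm q (A * B) = Nm q A * Nm q B := by
  unfold Nm
  rw [← prod_mul_distrib]
  exact prod_congr rfl fun z _ => by rw [map_mul, norm_mul]

theorem Nm_one (q : ℕ) : Nm q 1 = 1 := by simp [Nm]

theorem Nm_nonneg (q : ℕ) (A : ℤ[X]) : 0 ≤ Nm q A :=
  prod_nonneg fun _ _ => norm_nonneg _

theorem Nm_pow (q : ℕ) (A : ℤ[X]) (k : ℕ) : Nm q (A ^ k) = Nm q A ^ k := by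
  induction k with
  | zero => simp [Nm_one]
  | succ k ih => rw [pow_succ, Nm_mul, ih, pow_succ]

theorem cyc_dvd_iff {q : ℕ} (hq : 0 < q) {z : ℂ} (hz : z ∈ primitiveRoots q ℂ) (A : ℤ[X]) :
    cyclotomic q ℤ ∣ A ↔ aeval z A = 0 := by
  have hz' : IsPrimitiveRoot z q := (mem_primitiveRoots hq).1 hz
  rw [cyclotomic_eq_minpoly hz' hq]
  exact (minpoly.isIntegrallyClosed_dvd_iff (hz'.isIntegral hq) A).symm

theorem Nm_eq_zero_iff {q : ℕ} (hq : 0 < q) (A : ℤ[X]) :
    Nm q A = 0 ↔ cyclotomic q ℤ ∣ A := by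
  unfold Nm
  rw [prod_eq_zero_iff]
  constructor
  · rintro ⟨z, hz, h⟩
    exact (cyc_dvd_iff hq hz A).2 (norm_eq_zero.1 h)
  · intro h
    obtain ⟨z, hz⟩ : (primitiveRoots q ℂ).Nonempty := by
      rw [← card_pos, Complex.card_primitiveRoots]
      exact Nat.totient_pos.2 hq
    exact ⟨z, hz, by rw [(cyc_dvd_iff hq hz A).1 h, norm_zero]⟩

/-- `Nm q A` is the absolute value of an integer. -/
theorem Nm_eq_int {q : ℕ} (hq : 0 < q) (A : ℤ[X]) : ∃ N : ℤ, Nm q A = |(N : ℝ)| := by
  refine ⟨resultant (cyclotomic q ℤ) A, ?_⟩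
  have hz' : IsPrimitiveRoot (Complex.exp (2 * Real.pi * Complex.I / q)) q :=
    Complex.isPrimitiveRoot_exp q hq.ne'
  have hsp : (cyclotomic q ℂ).Splits := IsAlgClosed.splits _
  have h1 := resultant_eq_prod_eval (cyclotomic q ℂ) (A.map (Int.castRingHom ℂ)) A.natDegree
    natDegree_map_le hsp
  have h2 : resultant (cyclotomic q ℂ) (A.map (Int.castRingHom ℂ)) (cyclotomic q ℂ).natDegree
      A.natDegree = Int.castRingHom ℂ (resultant (cyclotomic q ℤ) A) := by
    rw [← map_cyclotomic_int q ℂ, resultant_map_map]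
    congr 1
    rw [natDegree_map_eq_of_injective (by exact Int.cast_injective)]
  rw [h2, (cyclotomic.monic q ℂ).leadingCoeff, one_pow, one_mul] at h1
  have h3 : (cyclotomic q ℂ).roots = (primitiveRoots q ℂ).val := by
    have : NeZero (q : ℂ) := ⟨by exact_mod_cast hq.ne'⟩
    exact cyclotomic.roots_eq_primitiveRoots_val
  rw [h3] at h1
  have h4 : ‖((resultant (cyclotomic q ℤ) A : ℤ) : ℂ)‖ = Nm q A := by
    have h5 : ((resultant (cyclotomic q ℤ) A : ℤ) : ℂ)
        = ∏ z ∈ primitiveRoots q ℂ, aeval z A := by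
      rw [show ((resultant (cyclotomic q ℤ) A : ℤ) : ℂ)
        = Int.castRingHom ℂ (resultant (cyclotomic q ℤ) A) from rfl, h1]
      unfold Finset.prod
      congr 1
      apply Multiset.map_congr rfl
      intro z _
      rw [eval_map, aeval_def]
      rfl
    rw [h5, norm_prod]
    rfl
  rw [← h4]
  simp

theorem one_le_Nm {q : ℕ} (hq : 0 < q) {A : ℤ[X]} (h : ¬ cyclotomic q ℤ ∣ A) : 1 ≤ Nm q A := by
  obtain ⟨N, hN⟩ := Nm_eq_int hq A
  have h0 : N ≠ 0 := by
    rintro rfl
    apply h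
    rw [← Nm_eq_zero_iff hq, hN]
    simp
  rw [hN]
  exact_mod_cast Int.one_le_abs h0

theorem not_cyc_dvd_cyc {q d : ℕ} (hq : 0 < q) (hqd : q ≠ d) :
    ¬ cyclotomic q ℤ ∣ cyclotomic d ℤ := by
  rcases Nat.eq_zero_or_pos d with rfl | hd
  · rw [cyclotomic_zero]
    intro h
    have := isUnit_of_dvd_one h
    exact (cyclotomic.irreducible hq).not_isUnit this
  intro h
  obtain ⟨z, hz⟩ : (primitiveRoots q ℂ).Nonempty := by
    rw [← card_pos, Complex.card_primitiveRoots]
    exact Nat.totient_pos.2 hq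
  have h1 := (cyc_dvd_iff hq hz _).1 h
  have hz1 : IsPrimitiveRoot z q := (mem_primitiveRoots hq).1 hz
  have hz2 : IsPrimitiveRoot z d := by
    have : NeZero (d : ℂ) := ⟨by exact_mod_cast hd.ne'⟩
    rw [← isRoot_cyclotomic_iff, IsRoot.def, ← map_cyclotomic_int d ℂ, eval_map]
    rw [aeval_def] at h1
    exact h1
  exact hqd (hz1.unique hz2)

theorem one_le_Nm_cyc {q d : ℕ} (hq : 0 < q) (hqd : q ≠ d) : 1 ≤ Nm q (cyclotomic d ℤ) :=
  one_le_Nm hq (not_cyc_dvd_cyc hq hqd)

theorem not_cyc_dvd_deriv {q : ℕ} (hq : 0 < q) :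
    ¬ cyclotomic q ℤ ∣ derivative (cyclotomic q ℤ) := by
  intro h
  have hpos : 0 < (cyclotomic q ℤ).natDegree := by
    rw [natDegree_cyclotomic]
    exact Nat.totient_pos.2 hq
  have h0 : derivative (cyclotomic q ℤ) ≠ 0 := by
    intro h0
    have := derivative_eq_zero.1 h0
    omega
  have h1 := natDegree_le_of_dvd h h0
  have h2 := natDegree_derivative_lt hpos.ne'
  omega

theorem one_le_Nm_deriv {q : ℕ} (hq : 0 < q) : 1 ≤ Nm q (derivative (cyclotomic q ℤ)) :=
  one_le_Nm hq (not_cyc_dvd_deriv hq)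

theorem eq_one_of_coprime_pow {x : ℂ} {a b : ℕ} (hab : Nat.Coprime a b) (h1 : x ^ a = 1)
    (h2 : x ^ b = 1) : x = 1 := by
  have h3 := pow_gcd_eq_one.2 ⟨h1, h2⟩
  rw [hab] at h3
  simpa using h3

theorem prod_pow_prim {m p : ℕ} (hm : 0 < m) (hcop : Nat.Coprime p m) (f : ℂ → ℝ) :
    ∏ z ∈ primitiveRoots m ℂ, f (z ^ p) = ∏ z ∈ primitiveRoots m ℂ, f z := by
  have hinj : Set.InjOn (fun z : ℂ => z ^ p) (primitiveRoots m ℂ) := by
    intro z hz w hw h
    have hz' := (mem_primitiveRoots hm).1 hz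
    have hw' := (mem_primitiveRoots hm).1 hw
    have hw0 : w ≠ 0 := hw'.ne_zero hm.ne'
    have h1 : (z / w) ^ p = 1 := by
      rw [div_pow]
      have : z ^ p = w ^ p := h
      rw [this, div_self (pow_ne_zero _ hw0)]
    have h2 : (z / w) ^ m = 1 := by
      rw [div_pow, hz'.pow_eq_one, hw'.pow_eq_one, div_one]
    have := eq_one_of_coprime_pow hcop h1 h2
    rwa [div_eq_one_iff_eq hw0] at this
  have himg : (primitiveRoots m ℂ).image (fun z : ℂ => z ^ p) = primitiveRoots m ℂ := by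
    apply eq_of_subset_of_card_le
    · intro x hx
      rw [mem_image] at hx
      obtain ⟨z, hz, rfl⟩ := hx
      rw [mem_primitiveRoots hm] at hz ⊢
      exact hz.pow_of_coprime p hcop
    · rw [card_image_of_injOn hinj]
  conv_rhs => rw [← himg, prod_image (fun x hx y hy h => hinj hx hy h)]

theorem prod_prim_mul {m p : ℕ} (hm : 0 < m) (hp : 0 < p) (hcop : Nat.Coprime m p) (f : ℂ → ℝ) :
    ∏ x ∈ primitiveRoots (m * p) ℂ, f x
      = ∏ z ∈ primitiveRoots m ℂ, ∏ w ∈ primitiveRoots p ℂ, f (z * w) := by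
  have hinj : Set.InjOn (fun z : ℂ × ℂ => z.1 * z.2)
      (primitiveRoots m ℂ ×ˢ primitiveRoots p ℂ : Finset (ℂ × ℂ)) := by
    rintro ⟨z, w⟩ h ⟨z', w'⟩ h' he
    rw [coe_product, Set.mem_prod] at h h'
    have hz := (mem_primitiveRoots hm).1 h.1
    have hw := (mem_primitiveRoots hp).1 h.2
    have hz' := (mem_primitiveRoots hm).1 h'.1
    have hw' := (mem_primitiveRoots hp).1 h'.2
    have z'0 : z' ≠ 0 := hz'.ne_zero hm.ne'
    have w0 : w ≠ 0 := hw.ne_zero hp.ne'
    have he' : z * w = z' * w' := he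
    have h1 : z / z' = w' / w := by
      rw [div_eq_div_iff z'0 w0, he']
      ring
    have h2 : (z / z') ^ m = 1 := by
      rw [div_pow, hz.pow_eq_one, hz'.pow_eq_one, div_one]
    have h3 : (z / z') ^ p = 1 := by
      rw [h1, div_pow, hw.pow_eq_one, hw'.pow_eq_one, div_one]
    have h4 := eq_one_of_coprime_pow hcop h2 h3
    have h5 : w' / w = 1 := h1 ▸ h4
    rw [div_eq_one_iff_eq z'0] at h4
    rw [div_eq_one_iff_eq w0] at h5
    rw [h4, h5]
  have himg : (primitiveRoots m ℂ ×ˢ primitiveRoots p ℂ).image (fun z : ℂ × ℂ => z.1 * z.2)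
      = primitiveRoots (m * p) ℂ := by
    apply eq_of_subset_of_card_le
    · intro x hx
      rw [mem_image] at hx
      obtain ⟨⟨z, w⟩, h, rfl⟩ := hx
      rw [mem_product] at h
      have hz := (mem_primitiveRoots hm).1 h.1
      have hw := (mem_primitiveRoots hp).1 h.2
      rw [mem_primitiveRoots (Nat.mul_pos hm hp), IsPrimitiveRoot.iff_orderOf]
      simp only
      rw [(Commute.all z w).orderOf_mul_eq_mul_orderOf_of_coprime, ← hz.eq_orderOf,
        ← hw.eq_orderOf]
      rw [← hz.eq_orderOf, ← hw.eq_orderOf]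
      exact hcop
    · rw [card_image_of_injOn hinj, card_product]
      simp only [Complex.card_primitiveRoots]
      rw [Nat.totient_mul hcop]
  rw [← himg, prod_image (fun x hx y hy h => hinj hx hy h), prod_product]

theorem norm_prim {m : ℕ} (hm : 0 < m) {z : ℂ} (hz : z ∈ primitiveRoots m ℂ) : ‖z‖ = 1 :=
  ((mem_primitiveRoots hm).1 hz).norm'_eq_one hm.ne'

theorem Nm_comm {q d : ℕ} (hq : 0 < q) (hd : 0 < d) :
    Nm q (cyclotomic d ℤ) = Nm d (cyclotomic q ℤ) := by
  have key : ∀ q d : ℕ, 0 < d → Nm q (cyclotomic d ℤ)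
      = ∏ z ∈ primitiveRoots q ℂ, ∏ w ∈ primitiveRoots d ℂ, ‖z - w‖ := by
    intro q d hd
    unfold Nm
    apply prod_congr rfl
    intro z _
    have hz' : IsPrimitiveRoot (Complex.exp (2 * Real.pi * Complex.I / d)) d :=
      Complex.isPrimitiveRoot_exp d hd.ne'
    rw [aeval_def, ← eval_map]
    have : (algebraMap ℤ ℂ) = Int.castRingHom ℂ := rfl
    rw [this, map_cyclotomic_int, cyclotomic_eq_prod_X_sub_primitiveRoots hz', eval_prod, norm_prod]
    apply prod_congr rfl
    intro w _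
    simp
  rw [key q d hd, key d q hq, prod_comm]
  apply prod_congr rfl
  intro w _
  apply prod_congr rfl
  intro z _
  rw [norm_sub_rev]

theorem deriv_expand_identity {m p : ℕ} (hp : p.Prime) (hpm : ¬ p ∣ m) (z : ℂ) :
    aeval (z ^ p) (derivative (cyclotomic m ℤ)) * (p * z ^ (p - 1))
      = aeval z (derivative (cyclotomic (m * p) ℤ)) * aeval z (cyclotomic m ℤ)
        + aeval z (cyclotomic (m * p) ℤ) * aeval z (derivative (cyclotomic m ℤ)) := by
  have h1 := congrArg derivative (cyclotomic_expand_eq_cyclotomic_mul hp hpm ℤ)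
  rw [derivative_expand, derivative_mul] at h1
  have h2 := congrArg (aeval z) h1
  simp only [map_mul, map_add, map_pow, aeval_X, map_natCast] at h2
  rw [expand_aeval] at h2
  exact h2

theorem Nm_up {m p : ℕ} (hm : 0 < m) (hp : p.Prime) (hpm : ¬ p ∣ m) :
    Nm m (cyclotomic (m * p) ℤ) = (p : ℝ) ^ m.totient := by
  have hcop : Nat.Coprime p m := (Nat.Prime.coprime_iff_not_dvd hp).2 hpm
  have h1 : ∏ z ∈ primitiveRoots m ℂ,
      ‖aeval (z ^ p) (derivative (cyclotomic m ℤ)) * (p * z ^ (p - 1))‖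
      = Nm m (cyclotomic (m * p) ℤ) * Nm m (derivative (cyclotomic m ℤ)) := by
    rw [← Nm_mul]
    unfold Nm
    apply prod_congr rfl
    intro z hz
    rw [deriv_expand_identity hp hpm z, (cyc_dvd_iff hm hz _).1 dvd_rfl, mul_zero, zero_add,
      map_mul]
  have h2 : ∏ z ∈ primitiveRoots m ℂ,
      ‖aeval (z ^ p) (derivative (cyclotomic m ℤ)) * (p * z ^ (p - 1))‖
      = Nm m (derivative (cyclotomic m ℤ)) * (p : ℝ) ^ m.totient := by
    rw [prod_congr rfl (g := fun z => ‖aeval (z ^ p) (derivative (cyclotomic m ℤ))‖ * (p : ℝ))]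
    · rw [prod_mul_distrib, prod_const, Complex.card_primitiveRoots]
      congr 1
      exact prod_pow_prim hm hcop (fun z => ‖aeval z (derivative (cyclotomic m ℤ))‖)
    · intro z hz
      rw [norm_mul, norm_mul, norm_pow, norm_prim hm hz, one_pow, mul_one]
      simp
  have h3 : 0 < Nm m (derivative (cyclotomic m ℤ)) :=
    lt_of_lt_of_le one_pos (one_le_Nm_deriv hm)
  have h4 := h1.symm.trans h2
  have h5 : Nm m (derivative (cyclotomic m ℤ)) * Nm m (cyclotomic (m * p) ℤ)
      = Nm m (derivative (cyclotomic m ℤ)) * (p : ℝ) ^ m.totient := by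
    rw [mul_comm, h4]
  exact mul_left_cancel₀ h3.ne' h5

theorem Nm_down {m p : ℕ} (hm : 0 < m) (hp : p.Prime) (hpm : ¬ p ∣ m) :
    Nm (m * p) (cyclotomic m ℤ) = (p : ℝ) ^ m.totient := by
  rw [Nm_comm (Nat.mul_pos hm hp.pos) hm, Nm_up hm hp hpm]

theorem Nm_deriv_mul {m p : ℕ} (hm : 0 < m) (hp : p.Prime) (hpm : ¬ p ∣ m) :
    Nm (m * p) (derivative (cyclotomic (m * p) ℤ)) * (p : ℝ) ^ m.totient
      = Nm m (derivative (cyclotomic m ℤ)) ^ (p - 1) * (p : ℝ) ^ (m * p).totient := by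
  have hcop : Nat.Coprime p m := (Nat.Prime.coprime_iff_not_dvd hp).2 hpm
  have hmp : 0 < m * p := Nat.mul_pos hm hp.pos
  have h1 : ∏ z ∈ primitiveRoots (m * p) ℂ,
      ‖aeval (z ^ p) (derivative (cyclotomic m ℤ)) * (p * z ^ (p - 1))‖
      = Nm (m * p) (derivative (cyclotomic (m * p) ℤ)) * Nm (m * p) (cyclotomic m ℤ) := by
    rw [← Nm_mul]
    unfold Nm
    apply prod_congr rfl
    intro z hz
    rw [deriv_expand_identity hp hpm z, (cyc_dvd_iff hmp hz _).1 dvd_rfl, zero_mul, add_zero,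
      map_mul]
  have h2 : ∏ z ∈ primitiveRoots (m * p) ℂ,
      ‖aeval (z ^ p) (derivative (cyclotomic m ℤ)) * (p * z ^ (p - 1))‖
      = Nm m (derivative (cyclotomic m ℤ)) ^ (p - 1) * (p : ℝ) ^ (m * p).totient := by
    rw [prod_congr rfl (g := fun z => ‖aeval (z ^ p) (derivative (cyclotomic m ℤ))‖ * (p : ℝ))]
    · rw [prod_mul_distrib, prod_const, Complex.card_primitiveRoots]
      congr 1
      rw [prod_prim_mul hm hp.pos hcop.symm]
      have h3 : ∀ z ∈ primitiveRoots m ℂ, ∏ w ∈ primitiveRoots p ℂ,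
          ‖aeval ((z * w) ^ p) (derivative (cyclotomic m ℤ))‖
          = ‖aeval (z ^ p) (derivative (cyclotomic m ℤ))‖ ^ (p - 1) := by
        intro z _
        have h4 : ∀ w ∈ primitiveRoots p ℂ, ‖aeval ((z * w) ^ p) (derivative (cyclotomic m ℤ))‖
          = ‖aeval (z ^ p) (derivative (cyclotomic m ℤ))‖ := by
          intro w hw
          rw [mul_pow, ((mem_primitiveRoots hp.pos).1 hw).pow_eq_one, mul_one]
        rw [prod_congr rfl h4, prod_const, Complex.card_primitiveRoots, Nat.totient_prime hp]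
      rw [prod_congr rfl h3, prod_pow]
      congr 1
      exact prod_pow_prim hm hcop (fun z => ‖aeval z (derivative (cyclotomic m ℤ))‖)
    · intro z hz
      rw [norm_mul, norm_mul, norm_pow, norm_prim hmp hz, one_pow, mul_one]
      simp
  rw [h1, Nm_down hm hp hpm] at h2
  exact h2

/-- Lower bound for the discriminant of `Φ_q`, `q` squarefree. -/
theorem log_Nm_deriv {q : ℕ} (hsq : Squarefree q) :
    Real.log (Nm q (derivative (cyclotomic q ℤ)))
      = (q.totient : ℝ) * (Real.log q - ∑ p ∈ q.primeFactors, Real.log p / ((p : ℝ) - 1)) := by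
  induction q using Nat.strong_induction_on with
  | _ q ih =>
    have hq0 : q ≠ 0 := hsq.ne_zero
    rcases eq_or_ne q 1 with rfl | hq1
    · simp [cyclotomic_one, Nm_one]
    · have hp := Nat.minFac_prime hq1
      set p := q.minFac with hpdef
      obtain ⟨m, hm⟩ : p ∣ q := Nat.minFac_dvd q
      rw [mul_comm] at hm
      have hm0 : 0 < m := by
        rcases Nat.eq_zero_or_pos m with h | h
        · rw [h, zero_mul] at hm
          exact absurd hm hq0
        · exact h
      have hpm : ¬ p ∣ m := by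
        intro h
        have h2 : p * p ∣ q := by
          rw [hm, mul_comm m p]
          exact Nat.mul_dvd_mul_left p h
        exact hp.one_lt.ne' (Nat.isUnit_iff.1 (hsq p h2))
      have hsm : Squarefree m := hsq.squarefree_of_dvd ⟨p, hm⟩
      have hmq : m < q := by
        rw [hm]
        exact lt_mul_of_one_lt_right hm0 hp.one_lt
      have ihm := ih m hmq hsm
      have hcop : Nat.Coprime m p := ((Nat.Prime.coprime_iff_not_dvd hp).2 hpm).symm
      have hN := Nm_deriv_mul hm0 hp hpm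
      have hp0 : (0 : ℝ) < p := by exact_mod_cast hp.pos
      have hp1 : (0 : ℝ) < (p : ℝ) - 1 := by
        have : (1 : ℝ) < p := by exact_mod_cast hp.one_lt
        linarith
      have hNm : 0 < Nm m (derivative (cyclotomic m ℤ)) :=
        lt_of_lt_of_le one_pos (one_le_Nm_deriv hm0)
      have hNq : 0 < Nm (m * p) (derivative (cyclotomic (m * p) ℤ)) :=
        lt_of_lt_of_le one_pos (one_le_Nm_deriv (Nat.mul_pos hm0 hp.pos))
      have hlog := congrArg Real.log hN
      rw [Real.log_mul hNq.ne' (pow_pos hp0 _).ne', Real.log_mul (pow_pos hNm _).ne'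
        (pow_pos hp0 _).ne', Real.log_pow, Real.log_pow, Real.log_pow, ihm] at hlog
      have hpf : q.primeFactors = insert p m.primeFactors := by
        rw [hm, Nat.primeFactors_mul hm0.ne' hp.ne_zero, hp.primeFactors, union_comm]
        rfl
      have hpn : p ∉ m.primeFactors := fun h => hpm (Nat.dvd_of_mem_primeFactors h)
      rw [hpf, sum_insert hpn]
      have htot : ((m * p).totient : ℝ) = (m.totient : ℝ) * ((p : ℝ) - 1) := by
        rw [Nat.totient_mul hcop, Nat.totient_prime hp]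
        push_cast [Nat.cast_sub hp.one_lt.le]
        ring
      have hcast : ((p - 1 : ℕ) : ℝ) = (p : ℝ) - 1 := by
        rw [Nat.cast_sub hp.one_lt.le]
        simp
      have hlq : Real.log q = Real.log m + Real.log p := by
        rw [hm, Nat.cast_mul, Real.log_mul (by exact_mod_cast hm0.ne') hp0.ne']
      rw [hcast, htot] at hlog
      have hq : Real.log (Nm q (derivative (cyclotomic q ℤ)))
          = Real.log (Nm (m * p) (derivative (cyclotomic (m * p) ℤ))) := by
        rw [← hm]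
      have hqt : (q.totient : ℝ) = (m.totient : ℝ) * ((p : ℝ) - 1) := by
        rw [← htot, ← hm]
      rw [hq, hqt, hlq]
      have e1 : (m.totient : ℝ) * ((p : ℝ) - 1) * (Real.log p / ((p : ℝ) - 1))
          = m.totient * Real.log p := by
        field_simp
      linarith [hlog, e1]

end

end Pool.Agent.H35.V1
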