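import Mathlib

/-!
Order of vanishing at one of integer polynomials of height one: basic definitions for the lower
bound `c * sqrt (n * log log n / log n)`.
-/

namespace Pool.Agent.H35.V1

open Polynomial Finset

noncomputable section

/-- The absolute value of the norm of the value of `A` at a primitive `q`-th root of unity. -/
def Nm (q : ℕ) (A : ℤ[X]) : ℝ := ∏ z ∈ primitiveRoots q ℂ, ‖aeval z A‖

/-- The polynomials of degree at most `n` with coefficients `0` and `1`. -/
def BP (n : ℕ) : Finset ℤ[X] :=
  (range (n + 1)).powerset.image (fun A => ∑ j ∈ A, (X : ℤ[X]) ^ j)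

/-- Number of residue classes modulo `G` of the polynomials in `BP n`. -/
def cls (n : ℕ) (G : ℤ[X]) : ℕ := ((BP n).image (fun P => P %ₘ G)).card

/-- The product of the cyclotomic polynomials `Φ_d`, `1 ≤ d ≤ Q`, with multiplicities `m d`. -/
def Gm (Q : ℕ) (m : ℕ → ℕ) : ℤ[X] := ∏ d ∈ Icc 1 Q, cyclotomic d ℤ ^ m d

/-- The logarithm of the volume controlling the number of classes when a factor `Φ_q` is added. -/
def LV (n Q q : ℕ) (m : ℕ → ℕ) : ℝ :=
  (Nat.totient q : ℝ) * Real.log ((n + 1).choose (m q + 1))
    - (m q : ℝ) * Real.log (Nm q (derivative (cyclotomic q ℤ)))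
    - ∑ d ∈ (Icc 1 Q).erase q, (m d : ℝ) * Real.log (Nm q (cyclotomic d ℤ))

end

end Pool.Agent.H35.V1
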