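import Pool.Agent.H35.V1.Total

/-!
Choice of the parameters and the final lower bound.
-/

namespace Pool.Agent.H35.V1

open Polynomial Finset

noncomputable section

/-- The thresholds. -/
def wf (N0 M r : ℕ) : ℕ := 2 ^ (N0 * 2 ^ (r / M))

theorem wf_mono (N0 M : ℕ) : Monotone (wf N0 M) := by
  intro r r' h
  unfold wf
  apply Nat.pow_le_pow_right (by norm_num)
  apply Nat.mul_le_mul_left
  apply Nat.pow_le_pow_right (by norm_num)
  exact Nat.div_le_div_right h

theorem log_wf (N0 M r : ℕ) : Real.log (wf N0 M r) = N0 * 2 ^ (r / M) * Real.log 2 := by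
  unfold wf
  push_cast
  rw [Real.log_pow]
  push_cast
  ring

/-- The construction with explicit parameters. -/
theorem core {C C2 : ℝ}
    (hC : ∀ w x : ℕ, 0 < w → 0 < x →
      Real.log x - Real.log w - C ≤ ∑ p ∈ PPr w x, Real.log p / p)
    (hC2 : 1 ≤ C2) (hmass : ∀ (n Q : ℕ) (w : ℕ → ℕ) (r : ℕ), 3 ≤ w r → w r ≤ n →
    Q ≤ n → ∑ q ∈ RR Q w r, 1 / (q.totient : ℝ) ≤ C2 * (Real.log n / Real.log (w r)))
    {n N0 S K k0 Q : ℕ} (hK : 120 * C2 ≤ K) (hN0 : 4 ≤ N0) (hS : 1 ≤ S) (hS2 : 2 ^ S ≤ N0)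
    (hL4 : 4 ≤ Real.log n) (hL1 : Real.sqrt (Real.log n) ≤ N0)
    (hL2 : (N0 : ℝ) ≤ Real.sqrt (Real.log n) + 1)
    (hk : 5 * (S * (2 * N0)) * Q ≤ k0) (hk0 : 0 < k0) (hQ : 0 < Q)
    (hkn : k0 ^ 2 * (K * N0 ^ 4 * S) ≤ n)
    (hH2 : Real.log n - Real.log k0 - Real.log Q + C + 5 ≤ N0 * Real.log 2) :
    ∃ p : ℤ[X], p ≠ 0 ∧ p.natDegree ≤ n ∧ (∀ i, |p.coeff i| ≤ 1) ∧
      (X - 1) ^ (k0 * (S * (2 * N0))) ∣ p := by
  set L := Real.log n with hL
  set M := 2 * N0 with hM
  set J := S * M with hJ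
  set w := wf N0 M with hw
  have hlog2 : 0.69 < Real.log 2 := by have := Real.log_two_gt_d9; linarith
  have hlog2' : Real.log 2 < 0.7 := by have := Real.log_two_lt_d9; linarith
  have hN0' : (4 : ℝ) ≤ N0 := by exact_mod_cast hN0
  have hLN : L ≤ (N0 : ℝ) ^ 2 := by
    have h1 := Real.sq_sqrt (show (0 : ℝ) ≤ L by linarith)
    have h2 := Real.sqrt_nonneg L
    nlinarith
  have hw0 : w 0 = 2 ^ N0 := by
    rw [hw]
    unfold wf
    simp
  have hlw0 : Real.log (w 0) = N0 * Real.log 2 := by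
    rw [hw0]
    push_cast
    rw [Real.log_pow]
  have hK0 : 0 < K := by
    have : (0 : ℝ) < K := by linarith
    exact_mod_cast this
  have hD : J ≤ K * N0 ^ 4 * S := by
    have h1 : M ≤ K * N0 ^ 4 := by
      have h2 : 2 * N0 ≤ N0 ^ 4 := by nlinarith [Nat.pow_le_pow_left hN0 3]
      calc M ≤ N0 ^ 4 := h2
        _ = 1 * N0 ^ 4 := (one_mul _).symm
        _ ≤ K * N0 ^ 4 := Nat.mul_le_mul_right _ hK0
    calc J = M * S := by rw [hJ, Nat.mul_comm]
      _ ≤ K * N0 ^ 4 * S := Nat.mul_le_mul_right _ h1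
  have hM0 : 0 < M := by omega
  have hJ0 : 0 < J := Nat.mul_pos hS hM0
  have hkJ : k0 * J ≤ n := by
    calc k0 * J ≤ k0 * (K * N0 ^ 4 * S) := Nat.mul_le_mul_left _ hD
      _ ≤ k0 ^ 2 * (K * N0 ^ 4 * S) := by
          apply Nat.mul_le_mul_right
          rw [sq]
          exact Nat.le_mul_of_pos_left _ hk0
      _ ≤ n := hkn
  have hn0 : 0 < n := lt_of_lt_of_le (Nat.mul_pos hk0 hJ0) hkJ
  have hn0' : (0 : ℝ) < n := by exact_mod_cast hn0
  have htot := log_cls_total (n := n) (Q := Q) (k0 := k0) (J := J) (M := M) (w := w)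
    (wf_mono N0 M) (by
      rw [hw0]
      calc 3 ≤ 2 ^ 4 := by norm_num
        _ ≤ 2 ^ N0 := Nat.pow_le_pow_right (by norm_num) hN0) hC hC2 hmass hk hkJ (by linarith)
    (by rw [hlw0]; exact hH2)
    (by
      rw [hw0]
      have h1 : N0 ^ 2 ≤ 2 ^ N0 := by
        clear * - hN0
        induction N0, hN0 using Nat.le_induction with
        | base => norm_num
        | succ m hm ih =>
          calc (m + 1) ^ 2 ≤ 2 * m ^ 2 := by nlinarith
            _ ≤ 2 * 2 ^ m := Nat.mul_le_mul_left 2 ih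
            _ = 2 ^ (m + 1) := by rw [pow_succ]; ring
      have h2 : ((N0 ^ 2 : ℕ) : ℝ) ≤ ((2 ^ N0 : ℕ) : ℝ) := by exact_mod_cast h1
      push_cast at h2 ⊢
      linarith)
    (by
      rw [hlw0, hM]
      push_cast
      nlinarith)
    (by
      intro r hr
      have h1 : r / M < S := (Nat.div_lt_iff_lt_mul hM0).2 hr
      have h2 : 2 * 2 ^ (r / M) ≤ N0 := by
        calc 2 * 2 ^ (r / M) = 2 ^ (r / M + 1) := by rw [pow_succ]; ring
          _ ≤ 2 ^ S := Nat.pow_le_pow_right (by norm_num) h1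
          _ ≤ N0 := hS2
      have h3 : (0 : ℝ) < w r := by
        rw [hw]
        unfold wf
        positivity
      have h4 : Real.log (w r) ≤ Real.log n := by
        rw [hw, log_wf]
        have h5 : (2 : ℝ) * 2 ^ (r / M) ≤ N0 := by exact_mod_cast h2
        have h6 : (N0 : ℝ) * 2 ^ (r / M) ≤ N0 ^ 2 / 2 := by nlinarith
        have h7 : (N0 : ℝ) ^ 2 ≤ (Real.sqrt L + 1) ^ 2 := by
          apply pow_le_pow_left₀ (by linarith) hL2
        have h8 : (Real.sqrt L + 1) ^ 2 = L + 2 * Real.sqrt L + 1 := by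
          rw [add_sq, Real.sq_sqrt (by linarith)]
          ring
        have h9 : 2 * Real.sqrt L ≤ L := by
          have h10 := Real.sq_sqrt (show (0 : ℝ) ≤ L by linarith)
          have h11 : 2 ≤ Real.sqrt L := Real.le_sqrt_of_sq_le (by linarith)
          nlinarith
        have h12 : (N0 : ℝ) ^ 2 ≤ 2 * L + 1 := by linarith
        have h13 : (N0 : ℝ) * 2 ^ (r / M) * Real.log 2 ≤ (N0 ^ 2 / 2) * Real.log 2 :=
          mul_le_mul_of_nonneg_right h6 (by linarith)
        have h14 : ((N0 : ℝ) ^ 2 / 2) * Real.log 2 ≤ ((2 * L + 1) / 2) * 0.7 := by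
          apply mul_le_mul _ hlog2'.le (by linarith) (by linarith)
          linarith
        linarith
      have h15 := (Real.log_le_log_iff h3 hn0').1 h4
      exact_mod_cast h15)
    (by
      intro r _
      have h1 := sum_two_pow_div M hM0 r
      have h2 := Nat.mod_lt r hM0
      have h3 : ∑ r' ∈ range r, 2 ^ (r' / M) ≤ 2 * M * 2 ^ (r / M) := by
        refine h1.trans (Nat.mul_le_mul_right _ ?_)
        omega
      have h4 : ∑ r' ∈ range r, (2 : ℝ) ^ (r' / M) ≤ 2 * M * 2 ^ (r / M) := by exact_mod_cast h3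
      calc ∑ r' ∈ range r, Real.log (w r')
          = (∑ r' ∈ range r, (2 : ℝ) ^ (r' / M)) * (N0 * Real.log 2) := by
            rw [sum_mul]
            apply sum_congr rfl
            intro r' _
            rw [hw, log_wf]
            ring
        _ ≤ (2 * M * 2 ^ (r / M)) * (N0 * Real.log 2) := by
            apply mul_le_mul_of_nonneg_right h4
            have : (0 : ℝ) ≤ N0 := Nat.cast_nonneg _
            have : 0 ≤ Real.log 2 := by linarith
            positivity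
        _ = 2 * M * Real.log (w r) := by
            rw [hw, log_wf]
            ring) hk0 hJ0 hM0
  -- the number of classes is small
  have hsmall : 15 * C2 * k0 ^ 2 * L * M * J < (n + 1) * Real.log 2 := by
    have h1 : ((k0 ^ 2 * (K * N0 ^ 4 * S) : ℕ) : ℝ) ≤ n := by exact_mod_cast hkn
    push_cast at h1
    have hMr : (M : ℝ) = 2 * N0 := by rw [hM]; push_cast; ring
    have hJr : (J : ℝ) = S * (2 * N0) := by rw [hJ]; push_cast; rw [hMr]
    have hS0 : (0 : ℝ) ≤ S := Nat.cast_nonneg S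
    calc 15 * C2 * k0 ^ 2 * L * M * J = (15 * C2 * k0 ^ 2 * (M * J)) * L := by ring
      _ ≤ (15 * C2 * k0 ^ 2 * (M * J)) * (N0 : ℝ) ^ 2 := by
          apply mul_le_mul_of_nonneg_left hLN
          positivity
      _ = (120 * C2 * (k0 ^ 2 * N0 ^ 4 * S)) / 2 := by
          rw [hMr, hJr]
          ring
      _ ≤ (K * (k0 ^ 2 * N0 ^ 4 * S)) / 2 := by
          apply div_le_div_of_nonneg_right _ (by norm_num)
          apply mul_le_mul_of_nonneg_right hK
          positivity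
      _ = (k0 ^ 2 * (K * N0 ^ 4 * S)) / 2 := by ring
      _ ≤ n / 2 := by linarith
      _ < (n + 1) * Real.log 2 := by nlinarith
  have hcls : cls n (Gm Q (mu Q k0 w J)) < 2 ^ (n + 1) := by
    have h1 := lt_of_le_of_lt htot hsmall
    have h2 : (0 : ℝ) < cls n (Gm Q (mu Q k0 w J)) := by exact_mod_cast cls_pos _ _
    have h3 : ((n : ℝ) + 1) * Real.log 2 = Real.log ((2 : ℝ) ^ (n + 1)) := by
      rw [Real.log_pow]
      push_cast
      ring
    rw [h3] at h1
    have h4 := (Real.log_lt_log_iff h2 (by positivity)).1 h1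
    exact_mod_cast h4
  obtain ⟨p, hp0, hpdeg, hpc, hpd⟩ := exists_of_cls_lt (monic_Gm _ _) hcls
  refine ⟨p, hp0, hpdeg, hpc, dvd_trans ?_ hpd⟩
  have h1mem : ∀ r' < J, 1 ∈ RR Q w r' := by
    intro r' _
    rw [mem_RR]
    refine ⟨⟨le_rfl, hQ⟩, squarefree_one, ?_⟩
    simp
  have hmu : mu Q k0 w J 1 = k0 * J := by
    rw [mu_eq_of_mem h1mem]
    simp
  have h2 : cyclotomic 1 ℤ ^ mu Q k0 w J 1 ∣ Gm Q (mu Q k0 w J) := by
    unfold Gm
    exact dvd_prod_of_mem (fun d => cyclotomic d ℤ ^ mu Q k0 w J d) (mem_Icc.2 ⟨le_rfl, hQ⟩)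
  rw [hmu, cyclotomic_one] at h2
  exact h2

end

end Pool.Agent.H35.V1
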