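import Pool.Agent.H41.PrimesModFour
import Pool.Agent.H91.GoldMertens

/-!
Mertens type estimates used for the order of vanishing at one.
-/

namespace Pool.Agent.H35.V1

open Finset Real
open Pool.Agent.H41 (c0 c0_pos B_lower B_upper exists_nonprime_bound)
open scoped ArithmeticFunction.vonMangoldt

noncomputable section

/-- Primes in `(w, z]`. -/
def PPr (w z : ℕ) : Finset ℕ := (Ioc w z).filter Nat.Prime

theorem mem_PPr {w z p : ℕ} : p ∈ PPr w z ↔ (w < p ∧ p ≤ z) ∧ p.Prime := by
  simp [PPr]

theorem exists_prime_lower : ∃ C : ℝ, 0 ≤ C ∧ ∀ w x : ℕ, 0 < w → 0 < x →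
    Real.log x - Real.log w - C ≤ ∑ p ∈ PPr w x, Real.log p / p := by
  obtain ⟨C, hC, hnp⟩ := exists_nonprime_bound
  have hc0 := c0_pos
  refine ⟨1 + c0 + C, by positivity, fun w x hw hx => ?_⟩
  have hw' : (0 : ℝ) < w := by exact_mod_cast hw
  have hx' : (0 : ℝ) < x := by exact_mod_cast hx
  rcases le_total w x with hwx | hwx
  · have h1 := B_lower x hx
    have h2 := B_upper w hw
    have h3 : ∑ d ∈ Ioc 0 x, ArithmeticFunction.vonMangoldt d / d
        = ∑ d ∈ Ioc 0 w, ArithmeticFunction.vonMangoldt d / d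
          + ∑ d ∈ Ioc w x, ArithmeticFunction.vonMangoldt d / d :=
      (sum_Ioc_consecutive _ (Nat.zero_le w) hwx).symm
    have h4 : ∑ d ∈ Ioc w x, ArithmeticFunction.vonMangoldt d / d
        = ∑ p ∈ PPr w x, Real.log p / p
          + ∑ d ∈ Ioc w x, (if d.Prime then 0 else ArithmeticFunction.vonMangoldt d) / (d : ℝ) := by
      unfold PPr
      rw [sum_filter, ← sum_add_distrib]
      apply sum_congr rfl
      intro d _
      split_ifs with hp
      · rw [ArithmeticFunction.vonMangoldt_apply_prime hp]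
        simp
      · simp
    have h0 : ∀ d : ℕ, 0 ≤ (if d.Prime then 0 else ArithmeticFunction.vonMangoldt d) / (d : ℝ) := by
      intro n
      apply div_nonneg _ (by positivity)
      split_ifs
      · exact le_rfl
      · exact ArithmeticFunction.vonMangoldt_nonneg
    have h5 : ∑ d ∈ Ioc w x, (if d.Prime then 0 else ArithmeticFunction.vonMangoldt d) / (d : ℝ)
        ≤ C := by
      refine le_trans ?_ (hnp x)
      apply sum_le_sum_of_subset_of_nonneg
      · intro d hd
        rw [mem_Ioc] at hd ⊢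
        omega
      · intro d _ _
        exact h0 d
    linarith
  · have h1 : (0 : ℝ) ≤ ∑ p ∈ PPr w x, Real.log p / p :=
      sum_nonneg fun p _ => div_nonneg (Real.log_natCast_nonneg p) (Nat.cast_nonneg p)
    have h2 : Real.log x ≤ Real.log w := Real.log_le_log hx' (by exact_mod_cast hwx)
    linarith

theorem sum_recip_le {w z : ℕ} (hw : 2 ≤ w) (hwz : w ≤ z) {c : ℝ} (hc : 0 ≤ c)
    (h : ∀ m, w ≤ m → m ≤ z → ∑ d ∈ Ioc w m, ArithmeticFunction.vonMangoldt d / d
      ≤ Real.log m - Real.log w + c) :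
    ∑ p ∈ PPr w z, (1 : ℝ) / p ≤ Real.log (Real.log z / Real.log w) + c / Real.log w := by
  have hlw : 0 < Real.log w := Real.log_pos (by exact_mod_cast (by omega : 1 < w))
  have hlog : ∀ k : ℕ, w ≤ k → 0 < Real.log k := by
    intro k hk
    apply Real.log_pos
    exact_mod_cast (by omega : 1 < k)
  have h1 : ∑ p ∈ PPr w z, (1 : ℝ) / p
      = ∑ k ∈ Ioc w z, (if k.Prime then Real.log k / k else 0) * (1 / Real.log k) := by
    unfold PPr
    rw [sum_filter]
    apply sum_congr rfl
    intro k hk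
    rw [mem_Ioc] at hk
    split_ifs with hp
    · have := (hlog k hk.1.le).ne'
      field_simp
    · simp
  have h2 : ∑ k ∈ Ioc w z, (if k.Prime then Real.log k / k else 0) * (1 / Real.log k)
      ≤ ∑ k ∈ Ioc w z, (Real.log k - Real.log (k - 1 : ℕ)) * (1 / Real.log k)
        + c * (1 / Real.log ((w + 1 : ℕ) : ℝ)) := by
    apply Pool.Agent.H91.Gold.abel_le hwz hc
    · intro k hk1 _
      have := hlog k hk1.le
      positivity
    · have := hlog (w + 1) (by omega)
      positivity
    · intro k hk1 _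
      have := hlog k hk1.le
      apply one_div_le_one_div_of_le this
      apply Real.log_le_log
      · exact_mod_cast (by omega : 0 < k)
      · push_cast; linarith
    · intro m hm1 hm2
      have e1 : ∑ k ∈ Ioc w m, (Real.log k - Real.log (k - 1 : ℕ)) = Real.log m - Real.log w := by
        clear hm2
        induction m, hm1 using Nat.le_induction with
        | base => simp
        | succ m hm ih =>
          rw [sum_Ioc_succ_top (by omega), ih]
          simp
      have e2 : ∑ k ∈ Ioc w m, (if k.Prime then Real.log k / k else 0)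
          ≤ ∑ k ∈ Ioc w m, Λ k / k := by
        apply sum_le_sum
        intro k _
        split_ifs with hp
        · rw [ArithmeticFunction.vonMangoldt_apply_prime hp]
        · have := ArithmeticFunction.vonMangoldt_nonneg (n := k)
          positivity
      rw [e1]
      exact e2.trans (h m hm1 hm2)
  have h3 : ∀ m, w ≤ m → ∑ k ∈ Ioc w m, (Real.log k - Real.log (k - 1 : ℕ)) * (1 / Real.log k)
      ≤ Real.log (Real.log m) - Real.log (Real.log w) := by
    intro m hm
    induction m, hm using Nat.le_induction with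
    | base => simp
    | succ m hm ih =>
      rw [sum_Ioc_succ_top (by omega)]
      have a1 := hlog m hm
      have a2 := hlog (m + 1) (by omega)
      have a3 : (Real.log ((m + 1 : ℕ) : ℝ) - Real.log (m + 1 - 1 : ℕ)) * (1 / Real.log ((m + 1 : ℕ) : ℝ))
          ≤ Real.log (Real.log ((m + 1 : ℕ) : ℝ)) - Real.log (Real.log m) := by
        have b1 := Real.log_le_sub_one_of_pos (x := Real.log m / Real.log ((m + 1 : ℕ) : ℝ)) (by positivity)
        rw [Real.log_div a1.ne' a2.ne'] at b1
        rw [Nat.add_sub_cancel]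
        have b2 : (Real.log ((m + 1 : ℕ) : ℝ) - Real.log m) * (1 / Real.log ((m + 1 : ℕ) : ℝ))
            = 1 - Real.log m / Real.log ((m + 1 : ℕ) : ℝ) := by
          field_simp
        rw [b2]
        linarith
      linarith
  have h4 := h3 z hwz
  have h5 : c * (1 / Real.log ((w + 1 : ℕ) : ℝ)) ≤ c / Real.log w := by
    rw [mul_one_div]
    apply div_le_div_of_nonneg_left hc hlw
    apply Real.log_le_log
    · exact_mod_cast (by omega : 0 < w)
    · push_cast; linarith
  rw [h1, Real.log_div (hlog z hwz).ne' hlw.ne']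
  linarith

theorem sum_tele {w z : ℕ} (hw : 2 ≤ w) (hwz : w ≤ z) :
    ∑ k ∈ Ioc w z, 1 / ((k : ℝ) * ((k : ℝ) - 1)) ≤ 1 / w - 1 / z := by
  induction z, hwz using Nat.le_induction with
  | base => simp
  | succ m hm ih =>
    rw [sum_Ioc_succ_top (by omega)]
    have hm0 : (0 : ℝ) < m := by exact_mod_cast (by omega : 0 < m)
    have h1 : 1 / (((m + 1 : ℕ) : ℝ) * (((m + 1 : ℕ) : ℝ) - 1)) = 1 / m - 1 / ((m + 1 : ℕ) : ℝ) := by
      push_cast
      rw [add_sub_cancel_right]
      field_simp
      ring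
    rw [h1]
    linarith

theorem exists_mertens_prod : ∃ C : ℝ, 0 < C ∧ ∀ w z : ℕ, 3 ≤ w → w ≤ z →
    ∏ p ∈ PPr w z, (1 + 1 / ((p : ℝ) - 1)) ≤ C * (Real.log z / Real.log w) := by
  have hc0 := c0_pos
  refine ⟨Real.exp (c0 + 2), Real.exp_pos _, fun w z hw hwz => ?_⟩
  have hw' : (3 : ℝ) ≤ w := by exact_mod_cast hw
  have hlw : 1 ≤ Real.log w := by
    rw [Real.le_log_iff_exp_le (by linarith)]
    have := Real.exp_one_lt_d9
    linarith
  have hlz : 0 < Real.log z := by
    apply Real.log_pos
    exact_mod_cast (by omega : 1 < z)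
  have hgen := sum_recip_le (w := w) (z := z) (by omega) hwz (c := c0 + 1) (by linarith) (by
    intro m hm1 _
    have h1 := B_upper m (by omega)
    have h2 := B_lower w (by omega)
    have h3 : ∑ d ∈ Ioc 0 m, ArithmeticFunction.vonMangoldt d / d
        = ∑ d ∈ Ioc 0 w, ArithmeticFunction.vonMangoldt d / d
          + ∑ d ∈ Ioc w m, ArithmeticFunction.vonMangoldt d / d :=
      (sum_Ioc_consecutive _ (Nat.zero_le w) hm1).symm
    linarith)
  have h1 : ∏ p ∈ PPr w z, (1 + 1 / ((p : ℝ) - 1))
      ≤ Real.exp (∑ p ∈ PPr w z, 1 / ((p : ℝ) - 1)) := by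
    rw [Real.exp_sum]
    apply prod_le_prod
    · intro p hp
      rw [mem_PPr] at hp
      have : (1 : ℝ) < p := by exact_mod_cast hp.2.one_lt
      have : 0 < 1 / ((p : ℝ) - 1) := by
        apply div_pos one_pos
        linarith
      linarith
    · intro p _
      rw [add_comm]
      exact Real.add_one_le_exp _
  have h2 : ∑ p ∈ PPr w z, 1 / ((p : ℝ) - 1)
      = ∑ p ∈ PPr w z, 1 / (p : ℝ) + ∑ p ∈ PPr w z, 1 / ((p : ℝ) * ((p : ℝ) - 1)) := by
    rw [← sum_add_distrib]
    apply sum_congr rfl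
    intro p hp
    rw [mem_PPr] at hp
    have h3 : (1 : ℝ) < p := by exact_mod_cast hp.2.one_lt
    have h4 : (p : ℝ) - 1 ≠ 0 := by linarith
    have h5 : (p : ℝ) ≠ 0 := by linarith
    field_simp
    ring
  have h3 : ∑ p ∈ PPr w z, 1 / ((p : ℝ) * ((p : ℝ) - 1)) ≤ 1 := by
    have h4 : ∑ p ∈ PPr w z, 1 / ((p : ℝ) * ((p : ℝ) - 1))
        ≤ ∑ k ∈ Ioc w z, 1 / ((k : ℝ) * ((k : ℝ) - 1)) := by
      apply sum_le_sum_of_subset_of_nonneg (filter_subset _ _)
      intro k hk _
      rw [mem_Ioc] at hk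
      have : (1 : ℝ) < k := by exact_mod_cast (by omega : 1 < k)
      apply div_nonneg zero_le_one
      nlinarith
    have h5 := sum_tele (by omega : 2 ≤ w) hwz
    have h6 : 1 / (w : ℝ) ≤ 1 := by
      rw [div_le_one (by linarith)]
      linarith
    have h7 : 0 ≤ 1 / (z : ℝ) := by positivity
    linarith
  have h4 : (c0 + 1) / Real.log w ≤ c0 + 1 := div_le_self (by linarith) hlw
  have h5 : ∑ p ∈ PPr w z, 1 / ((p : ℝ) - 1) ≤ Real.log (Real.log z / Real.log w) + (c0 + 2) := by
    rw [h2]
    linarith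
  refine h1.trans ((Real.exp_le_exp.2 h5).trans (le_of_eq ?_))
  rw [Real.exp_add, Real.exp_log (by positivity)]
  ring

end

end Pool.Agent.H35.V1
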