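import Pool.Agent.H35.V1.CycNorm

/-!
A packing lemma for algebraic integers in a cyclotomic field.
-/

namespace Pool.Agent.H35.V1

open Polynomial Finset

noncomputable section

theorem floor_mem {T : ℕ} {B x : ℝ} (hB : 0 < B) (hx : |x| ≤ B) :
    ⌊(T : ℝ) * x / B⌋ ∈ Icc (-(T : ℤ)) T := by
  rw [abs_le] at hx
  have hT : (0 : ℝ) ≤ T := Nat.cast_nonneg T
  rw [mem_Icc]
  constructor
  · rw [Int.le_floor, le_div_iff₀ hB]
    push_cast
    nlinarith
  · have h : (T : ℝ) * x / B ≤ T := by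
      rw [div_le_iff₀ hB]
      nlinarith
    have h2 := Int.floor_le ((T : ℝ) * x / B)
    have h3 : ((⌊(T : ℝ) * x / B⌋ : ℤ) : ℝ) ≤ ((T : ℤ) : ℝ) := by
      push_cast
      linarith
    exact_mod_cast h3

theorem floor_eq_close {T : ℕ} (hT : 0 < T) {B x y : ℝ} (hB : 0 < B)
    (h : ⌊(T : ℝ) * x / B⌋ = ⌊(T : ℝ) * y / B⌋) : |x - y| < B / T := by
  have hT' : (0 : ℝ) < T := by exact_mod_cast hT
  have h1 := Int.abs_sub_lt_one_of_floor_eq_floor h
  have h2 : (T : ℝ) * x / B - (T : ℝ) * y / B = (T / B) * (x - y) := by ring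
  rw [h2, abs_mul, abs_of_pos (by positivity)] at h1
  rw [lt_div_iff₀ hT']
  have h3 := mul_lt_mul_of_pos_left h1 hB
  have h4 : B * (T / B * |x - y|) = |x - y| * T := by field_simp
  rw [h4, mul_one] at h3
  exact h3

/-- Packing lemma. -/
theorem pack {ι : Type*} [DecidableEq ι] {q : ℕ} (hq : 0 < q) (F : Finset ι) (R : ι → ℤ[X])
    (B : ℂ → ℝ) (hB : ∀ z ∈ primitiveRoots q ℂ, 0 < B z)
    (hdiff : ∀ i ∈ F, ∀ i' ∈ F, ∀ z ∈ primitiveRoots q ℂ, ‖aeval z (R i - R i')‖ ≤ B z)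
    (hinc : ∀ i ∈ F, ∀ i' ∈ F, i ≠ i' → ¬ cyclotomic q ℤ ∣ R i - R i')
    (T : ℕ) (hT : 0 < T)
    (hV : (2 / T : ℝ) ^ q.totient * ∏ z ∈ primitiveRoots q ℂ, B z < 1) :
    F.card ≤ ((2 * T + 1) ^ 2) ^ q.totient := by
  classical
  rcases F.eq_empty_or_nonempty with rfl | ⟨i0, hi0⟩
  · simp
  by_contra hcon
  push Not at hcon
  have hT' : (0 : ℝ) < T := by exact_mod_cast hT
  set Z := primitiveRoots q ℂ with hZ
  let idx : ι → (↥Z → ℤ × ℤ) := fun i z =>
    (⌊(T : ℝ) * (aeval (z : ℂ) (R i - R i0)).re / B z⌋,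
      ⌊(T : ℝ) * (aeval (z : ℂ) (R i - R i0)).im / B z⌋)
  let tgt : Finset (↥Z → ℤ × ℤ) :=
    Fintype.piFinset fun _ => (Icc (-(T : ℤ)) T) ×ˢ (Icc (-(T : ℤ)) T)
  have hcard : tgt.card = ((2 * T + 1) ^ 2) ^ q.totient := by
    simp only [tgt, Fintype.card_piFinset, card_product, Int.card_Icc, prod_const, card_univ,
      Fintype.card_coe]
    rw [hZ, Complex.card_primitiveRoots]
    congr 1
    rw [sq]
    congr 1 <;> omega
  have hmaps : ∀ i ∈ F, idx i ∈ tgt := by
    intro i hi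
    simp only [tgt, Fintype.mem_piFinset, mem_product, idx]
    intro z
    have h1 := hdiff i hi i0 hi0 z z.2
    constructor
    · exact floor_mem (hB z z.2) ((Complex.abs_re_le_norm _).trans h1)
    · exact floor_mem (hB z z.2) ((Complex.abs_im_le_norm _).trans h1)
  obtain ⟨i, hi, i', hi', hne, heq⟩ :=
    exists_ne_map_eq_of_card_lt_of_maps_to (hcard ▸ hcon) hmaps
  have h1 := one_le_Nm hq (hinc i hi i' hi' hne)
  have h2 : Nm q (R i - R i') ≤ (2 / T : ℝ) ^ q.totient * ∏ z ∈ Z, B z := by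
    have h3 : (2 / T : ℝ) ^ q.totient * ∏ z ∈ Z, B z = ∏ z ∈ Z, (2 / T : ℝ) * B z := by
      rw [prod_mul_distrib, prod_const, hZ, Complex.card_primitiveRoots]
    rw [h3]
    unfold Nm
    apply prod_le_prod
    · intro z _
      exact norm_nonneg _
    · intro z hz
      have h4 := congrFun heq ⟨z, hz⟩
      simp only [idx, Prod.mk.injEq] at h4
      have h5 := floor_eq_close hT (hB z hz) h4.1
      have h6 := floor_eq_close hT (hB z hz) h4.2
      have h7 : aeval z (R i - R i') = aeval z (R i - R i0) - aeval z (R i' - R i0) := by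
        simp only [map_sub]
        ring
      rw [h7]
      refine (Complex.norm_le_abs_re_add_abs_im _).trans ?_
      rw [Complex.sub_re, Complex.sub_im]
      have h8 : 2 / (T : ℝ) * B z = B z / T + B z / T := by ring
      rw [h8]
      exact add_le_add h5.le h6.le
  linarith

end

end Pool.Agent.H35.V1
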