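import Pool.Agent.H35.V1.Round
import Pool.Agent.H35.V1.NT

/-!
The multiplicities of the cyclotomic factors and the bound for the volume in every round.
-/

namespace Pool.Agent.H35.V1

open Polynomial Finset

noncomputable section

/-- Squarefree numbers `q ≤ Q` all of whose prime factors exceed `w r`. -/
def RR (Q : ℕ) (w : ℕ → ℕ) (r : ℕ) : Finset ℕ :=
  (Icc 1 Q).filter (fun q => Squarefree q ∧ ∀ p ∈ q.primeFactors, w r < p)

/-- Multiplicities before round `r`. -/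
def mu (Q k0 : ℕ) (w : ℕ → ℕ) (r d : ℕ) : ℕ :=
  (k0 / d.totient) * ((range r).filter (fun r' => d ∈ RR Q w r')).card

theorem mem_RR {Q : ℕ} {w : ℕ → ℕ} {r q : ℕ} : q ∈ RR Q w r ↔
    (1 ≤ q ∧ q ≤ Q) ∧ Squarefree q ∧ ∀ p ∈ q.primeFactors, w r < p := by
  simp [RR]

theorem mu_succ (Q k0 : ℕ) (w : ℕ → ℕ) (r d : ℕ) :
    mu Q k0 w (r + 1) d = mu Q k0 w r d + if d ∈ RR Q w r then k0 / d.totient else 0 := by
  unfold mu
  rw [range_add_one, filter_insert]
  split_ifs with h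
  · rw [card_insert_of_notMem (by simp)]
    ring
  · rw [add_zero]

theorem mu_le_succ (Q k0 : ℕ) (w : ℕ → ℕ) (r d : ℕ) :
    mu Q k0 w r d ≤ mu Q k0 w (r + 1) d := by
  rw [mu_succ]
  exact Nat.le_add_right _ _

theorem mu_eq_of_mem {Q k0 : ℕ} {w : ℕ → ℕ} {r d : ℕ} (h : ∀ r' < r, d ∈ RR Q w r') :
    mu Q k0 w r d = (k0 / d.totient) * r := by
  unfold mu
  rw [filter_true_of_mem, card_range]
  intro r' hr'
  exact h r' (mem_range.1 hr')

theorem mem_RR_of_dvd {Q : ℕ} {w : ℕ → ℕ} {r d q : ℕ} (hq : q ∈ RR Q w r) (hd : d ∣ q) :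
    d ∈ RR Q w r := by
  rw [mem_RR] at hq ⊢
  have hq0 : 0 < q := hq.1.1
  refine ⟨⟨Nat.pos_of_dvd_of_pos hd hq0, (Nat.le_of_dvd hq0 hd).trans hq.1.2⟩,
    hq.2.1.squarefree_of_dvd hd, fun p hp => hq.2.2 p (Nat.primeFactors_mono hd hq0.ne' hp)⟩

theorem mem_RR_of_le {Q : ℕ} {w : ℕ → ℕ} (hw : Monotone w) {r r' q : ℕ} (hr : r' ≤ r)
    (hq : q ∈ RR Q w r) : q ∈ RR Q w r' := by
  rw [mem_RR] at hq ⊢
  exact ⟨hq.1, hq.2.1, fun p hp => lt_of_le_of_lt (hw hr) (hq.2.2 p hp)⟩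

theorem log_choose_le (N k : ℕ) (hk : 0 < k) (hkN : k ≤ N) :
    Real.log (N.choose k) ≤ k * (Real.log N - Real.log k + 1) := by
  have hN : 0 < N := lt_of_lt_of_le hk hkN
  have hN' : (0 : ℝ) < N := by exact_mod_cast hN
  have hk' : (0 : ℝ) < k := by exact_mod_cast hk
  have h1 : ((N.choose k : ℕ) : ℝ) ≤ (N : ℝ) ^ k / (k.factorial : ℝ) := Nat.choose_le_pow_div k N
  have h2 := Real.pow_div_factorial_le_exp (k : ℝ) hk'.le k
  have hf : (0 : ℝ) < k.factorial := by exact_mod_cast k.factorial_pos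
  have h3 : (N : ℝ) ^ k / (k.factorial : ℝ) ≤ (N : ℝ) ^ k * Real.exp k / (k : ℝ) ^ k := by
    rw [div_le_div_iff₀ hf (by positivity)]
    rw [div_le_iff₀ hf] at h2
    calc (N : ℝ) ^ k * (k : ℝ) ^ k ≤ (N : ℝ) ^ k * (Real.exp k * k.factorial) := by
          apply mul_le_mul_of_nonneg_left h2
          positivity
      _ = (N : ℝ) ^ k * Real.exp k * k.factorial := by ring
  have h4 : (0 : ℝ) < ((N.choose k : ℕ) : ℝ) := by exact_mod_cast Nat.choose_pos hkN
  have h5 := Real.log_le_log h4 (h1.trans h3)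
  rw [Real.log_div (by positivity) (by positivity), Real.log_mul (by positivity) (by positivity),
    Real.log_exp, Real.log_pow, Real.log_pow] at h5
  linarith

theorem xlog_mono {X X1 A : ℝ} (hX : 0 < X) (hX1 : X ≤ X1) (hA : 1 ≤ A - Real.log X1) :
    X * (A - Real.log X) ≤ X1 * (A - Real.log X1) := by
  have hX1' : 0 < X1 := lt_of_lt_of_le hX hX1
  have h1 : Real.log X1 - Real.log X ≤ X1 / X - 1 := by
    rw [← Real.log_div hX1'.ne' hX.ne']
    exact Real.log_le_sub_one_of_pos (by positivity)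
  have h2 : X * (Real.log X1 - Real.log X) ≤ X1 - X := by
    calc X * (Real.log X1 - Real.log X) ≤ X * (X1 / X - 1) := mul_le_mul_of_nonneg_left h1 hX.le
      _ = X1 - X := by field_simp
  nlinarith [mul_le_mul_of_nonneg_left hA (sub_nonneg.2 hX1)]

theorem sum_log_primeFactors {q : ℕ} (hq : Squarefree q) :
    ∑ p ∈ q.primeFactors, Real.log p = Real.log q := by
  rw [← Real.log_prod]
  · congr 1
    have h := Nat.prod_primeFactors_of_squarefree hq
    calc ∏ i ∈ q.primeFactors, (i : ℝ) = ((∏ i ∈ q.primeFactors, i : ℕ) : ℝ) := by push_cast; rfl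
      _ = q := by rw [h]
  · intro p hp
    exact_mod_cast (Nat.prime_of_mem_primeFactors hp).ne_zero

theorem delta_le {q W : ℕ} (hq : Squarefree q) (hW : 0 < W) (h : ∀ p ∈ q.primeFactors, W < p)
    (hlog : Real.log q ≤ W) :
    ∑ p ∈ q.primeFactors, Real.log p / ((p : ℝ) - 1) ≤ 1 := by
  have hW' : (0 : ℝ) < W := by exact_mod_cast hW
  have h1 : ∀ p ∈ q.primeFactors, Real.log p / ((p : ℝ) - 1) ≤ Real.log p / W := by
    intro p hp
    have h2 : (W : ℝ) + 1 ≤ p := by exact_mod_cast h p hp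
    apply div_le_div_of_nonneg_left (Real.log_natCast_nonneg p) hW'
    linarith
  refine (sum_le_sum h1).trans ?_
  rw [← sum_div, sum_log_primeFactors hq, div_le_one hW']
  exact hlog

theorem delta_le' {q W : ℕ} (hq : Squarefree q) (hW : 0 < W) (h : ∀ p ∈ q.primeFactors, W < p)
    (hlog : Real.log q ≤ W) :
    ∑ p ∈ q.primeFactors, Real.log p / (p : ℝ) ≤ 1 := by
  have hW' : (0 : ℝ) < W := by exact_mod_cast hW
  have h1 : ∀ p ∈ q.primeFactors, Real.log p / (p : ℝ) ≤ Real.log p / W := by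
    intro p hp
    have h2 : (W : ℝ) + 1 ≤ p := by exact_mod_cast h p hp
    apply div_le_div_of_nonneg_left (Real.log_natCast_nonneg p) hW'
    linarith
  refine (sum_le_sum h1).trans ?_
  rw [← sum_div, sum_log_primeFactors hq, div_le_one hW']
  exact hlog

theorem delta_nonneg (q : ℕ) : 0 ≤ ∑ p ∈ q.primeFactors, Real.log p / ((p : ℝ) - 1) := by
  apply sum_nonneg
  intro p hp
  have : (1 : ℝ) < p := by exact_mod_cast (Nat.prime_of_mem_primeFactors hp).one_lt
  apply div_nonneg (Real.log_natCast_nonneg p)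
  linarith

theorem theta_le (x : ℕ) : ∑ p ∈ PPr 0 x, Real.log p ≤ 2 * x := by
  have h1 := Chebyshev.theta_le_log4_mul_x (x := (x : ℝ)) (Nat.cast_nonneg x)
  unfold Chebyshev.theta at h1
  rw [Nat.floor_natCast] at h1
  have h2 : Real.log 4 ≤ 2 := by
    rw [show (4 : ℝ) = 2 ^ 2 by norm_num, Real.log_pow]
    have := Real.log_two_lt_d9
    push_cast
    linarith
  have h3 : (0 : ℝ) ≤ x := Nat.cast_nonneg x
  unfold PPr
  nlinarith

theorem totient_mul_div_ge {k0 d : ℕ} (hd : 0 < d) :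
    (k0 : ℝ) - d.totient ≤ ((k0 / d.totient : ℕ) : ℝ) * d.totient := by
  have h1 : 0 < d.totient := Nat.totient_pos.2 hd
  have h2 := Nat.div_add_mod k0 d.totient
  have h3 := Nat.mod_lt k0 h1
  have h4 : k0 ≤ d.totient * (k0 / d.totient) + d.totient := by omega
  have h5 : (k0 : ℝ) ≤ d.totient * ((k0 / d.totient : ℕ) : ℝ) + d.totient := by exact_mod_cast h4
  linarith

end

end Pool.Agent.H35.V1
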