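import Pool.Agent.H35.V1.Step

/-!
Adding many cyclotomic factors, one at a time.
-/

namespace Pool.Agent.H35.V1

open Polynomial Finset

noncomputable section

theorem Gm_congr {Q : ℕ} {m m' : ℕ → ℕ} (h : ∀ q ∈ Icc 1 Q, m q = m' q) : Gm Q m = Gm Q m' := by
  unfold Gm
  apply prod_congr rfl
  intro q hq
  rw [h q hq]

theorem Gm_update {Q q : ℕ} (hq : q ∈ Icc 1 Q) (m : ℕ → ℕ) :
    Gm Q (Function.update m q (m q + 1)) = Gm Q m * cyclotomic q ℤ := by
  unfold Gm
  rw [← mul_prod_erase _ _ hq, ← mul_prod_erase _ (fun d => cyclotomic d ℤ ^ m d) hq,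
    Function.update_self, pow_succ]
  have : ∏ x ∈ (Icc 1 Q).erase q, cyclotomic x ℤ ^ Function.update m q (m q + 1) x
      = ∏ x ∈ (Icc 1 Q).erase q, cyclotomic x ℤ ^ m x := by
    apply prod_congr rfl
    intro x hx
    rw [Function.update_of_ne (ne_of_mem_erase hx)]
  rw [this]
  ring

theorem log_cls_round {n Q : ℕ} {U : ℝ} (hU : 0 ≤ U) (m' : ℕ → ℕ)
    (hn : ∀ q ∈ Icc 1 Q, m' q ≤ n + 1) (m : ℕ → ℕ) (hle : ∀ q, m q ≤ m' q)
    (hLV : ∀ μ : ℕ → ℕ, (∀ q, m q ≤ μ q) → (∀ q, μ q ≤ m' q) →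
      ∀ q ∈ Icc 1 Q, μ q < m' q → LV n Q q μ ≤ U) :
    Real.log (cls n (Gm Q m')) ≤ Real.log (cls n (Gm Q m))
      + ∑ q ∈ Icc 1 Q, ((m' q - m q : ℕ) : ℝ) * (4 * q.totient + 2 * U) := by
  obtain ⟨N, hN⟩ : ∃ N, N = ∑ q ∈ Icc 1 Q, (m' q - m q) := ⟨_, rfl⟩
  induction N generalizing m with
  | zero =>
    have h0 : ∀ q ∈ Icc 1 Q, m' q - m q = 0 := by
      intro q hq
      exact (sum_eq_zero_iff.1 hN.symm) q hq
    have h1 : ∀ q ∈ Icc 1 Q, m' q = m q := by
      intro q hq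
      have := h0 q hq
      have := hle q
      omega
    rw [Gm_congr h1, sum_eq_zero (s := Icc 1 Q)]
    · linarith
    · intro q hq
      rw [h0 q hq]
      simp
  | succ N ih =>
    have hex : ∃ q ∈ Icc 1 Q, 0 < m' q - m q := by
      by_contra hcon
      push Not at hcon
      have : ∑ q ∈ Icc 1 Q, (m' q - m q) = 0 :=
        sum_eq_zero fun q hq => Nat.le_zero.1 (hcon q hq)
      omega
    obtain ⟨q, hq, hlt⟩ := hex
    set m1 := Function.update m q (m q + 1) with hm1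
    have hm1q : m1 q = m q + 1 := by rw [hm1, Function.update_self]
    have hm1o : ∀ x, x ≠ q → m1 x = m x := fun x hx => by rw [hm1, Function.update_of_ne hx]
    have hle1 : ∀ x, m1 x ≤ m' x := by
      intro x
      by_cases hx : x = q
      · rw [hx, hm1q]; omega
      · rw [hm1o x hx]; exact hle x
    have hle0 : ∀ x, m x ≤ m1 x := by
      intro x
      by_cases hx : x = q
      · rw [hx, hm1q]; omega
      · rw [hm1o x hx]
    have hsum1 : ∑ x ∈ Icc 1 Q, (m' x - m1 x) = N := by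
      have h1 : ∑ x ∈ Icc 1 Q, (m' x - m x) = ∑ x ∈ Icc 1 Q, (m' x - m1 x) + 1 := by
        rw [← add_sum_erase _ _ hq, ← add_sum_erase (Icc 1 Q) (fun x => m' x - m1 x) hq]
        have h2 : ∑ x ∈ (Icc 1 Q).erase q, (m' x - m x) = ∑ x ∈ (Icc 1 Q).erase q, (m' x - m1 x) :=
          sum_congr rfl fun x hx => by rw [hm1o x (ne_of_mem_erase hx)]
        rw [h2, hm1q]
        omega
      omega
    have hih := ih m1 hle1 (fun μ h1 h2 => hLV μ (fun x => (hle0 x).trans (h1 x)) h2) hsum1.symm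
    have hmn : m q ≤ n := by
      have := hn q hq
      omega
    have hstep := log_cls_step hq m hmn
    have hlv := hLV m (fun _ => le_rfl) hle q hq (by omega)
    have hmax : max 0 (LV n Q q m) ≤ U := max_le hU hlv
    rw [← Gm_update hq m, ← hm1] at hstep
    have hsumR : ∑ x ∈ Icc 1 Q, ((m' x - m x : ℕ) : ℝ) * (4 * x.totient + 2 * U)
        = ∑ x ∈ Icc 1 Q, ((m' x - m1 x : ℕ) : ℝ) * (4 * x.totient + 2 * U)
          + (4 * q.totient + 2 * U) := by
      rw [← add_sum_erase _ _ hq, ← add_sum_erase (Icc 1 Q)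
        (fun x => ((m' x - m1 x : ℕ) : ℝ) * (4 * x.totient + 2 * U)) hq]
      have h2 : ∑ x ∈ (Icc 1 Q).erase q, ((m' x - m x : ℕ) : ℝ) * (4 * x.totient + 2 * U)
          = ∑ x ∈ (Icc 1 Q).erase q, ((m' x - m1 x : ℕ) : ℝ) * (4 * x.totient + 2 * U) :=
        sum_congr rfl fun x hx => by rw [hm1o x (ne_of_mem_erase hx)]
      rw [h2, hm1q]
      have h3 : ((m' q - m q : ℕ) : ℝ) = ((m' q - (m q + 1) : ℕ) : ℝ) + 1 := by
        have : m' q - m q = m' q - (m q + 1) + 1 := by omega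
        rw [this]
        push_cast
        ring
      rw [h3]
      ring
    rw [hsumR]
    linarith

/-- Existence of the polynomial once the number of classes is small. -/
theorem exists_of_cls_lt {n : ℕ} {G : ℤ[X]} (hG : G.Monic) (h : cls n G < 2 ^ (n + 1)) :
    ∃ p : ℤ[X], p ≠ 0 ∧ p.natDegree ≤ n ∧ (∀ i, |p.coeff i| ≤ 1) ∧ G ∣ p := by
  rw [← card_BP] at h
  obtain ⟨P, hP, P', hP', hne, heq⟩ := exists_ne_map_eq_of_card_lt_of_maps_to h
    (fun P hP => mem_image_of_mem (fun P => P %ₘ G) hP)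
  refine ⟨P - P', sub_ne_zero.2 hne, (diff_BP hP hP').1, (diff_BP hP hP').2, ?_⟩
  rw [← modByMonic_eq_zero_iff_dvd hG, sub_modByMonic, sub_eq_zero]
  exact heq

end

end Pool.Agent.H35.V1
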