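import Pool.Agent.H35.V1.Pack

/-!
Adding one cyclotomic factor: the number of residue classes grows in a controlled way.
-/

namespace Pool.Agent.H35.V1

open Polynomial Finset

noncomputable section

theorem sum_choose (n j : ℕ) : ∑ i ∈ range (n + 1), i.choose j = (n + 1).choose (j + 1) := by
  induction n with
  | zero =>
    rcases Nat.eq_zero_or_pos j with rfl | hj
    · simp
    · rw [sum_range_one, Nat.choose_eq_zero_of_lt hj, Nat.choose_eq_zero_of_lt (by omega)]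
  | succ n ih =>
    rw [sum_range_succ, ih, Nat.choose_succ_succ (n + 1) j]
    ring

theorem hasse_bound {n : ℕ} (D : ℤ[X]) (hdeg : D.natDegree ≤ n) (hc : ∀ i, |D.coeff i| ≤ 1)
    (j : ℕ) {z : ℂ} (hz : ‖z‖ = 1) :
    ‖((D.map (Int.castRingHom ℂ)).taylor z).coeff j‖ ≤ ((n + 1).choose (j + 1) : ℝ) := by
  rw [taylor_coeff, hasseDeriv_apply, sum_over_range' _ _ (n + 1)]
  · rw [eval_finsetSum, ← sum_choose n j]
    refine (norm_sum_le _ _).trans ?_
    push_cast
    apply sum_le_sum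
    intro i _
    rw [eval_monomial, norm_mul, norm_mul, norm_pow, hz, one_pow, mul_one]
    have h1 : ‖(D.map (Int.castRingHom ℂ)).coeff i‖ ≤ 1 := by
      rw [coeff_map]
      simp only [eq_intCast, Complex.norm_intCast]
      exact_mod_cast hc i
    have h2 : ‖((i.choose j : ℕ) : ℂ)‖ = (i.choose j : ℝ) := Complex.norm_natCast _
    rw [h2]
    have h3 : (0 : ℝ) ≤ (i.choose j : ℝ) := Nat.cast_nonneg _
    nlinarith
  · refine lt_of_le_of_lt natDegree_map_le ?_
    omega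
  · intro i
    simp

/-- The value at `z` of the cofactor of `(X - z) ^ m q` in `Gm Q m`. -/
def hz (Q q : ℕ) (m : ℕ → ℕ) (z : ℂ) : ℝ :=
  ‖aeval z (derivative (cyclotomic q ℤ))‖ ^ m q
    * ∏ d ∈ (Icc 1 Q).erase q, ‖aeval z (cyclotomic d ℤ)‖ ^ m d

theorem aeval_ne_zero {q : ℕ} (hq : 0 < q) {A : ℤ[X]} (h : ¬ cyclotomic q ℤ ∣ A) {z : ℂ}
    (hz : z ∈ primitiveRoots q ℂ) : aeval z A ≠ 0 :=
  fun h0 => h ((cyc_dvd_iff hq hz A).2 h0)

theorem hz_pos {Q q : ℕ} (hq : 0 < q) (m : ℕ → ℕ) {z : ℂ} (hz' : z ∈ primitiveRoots q ℂ) :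
    0 < hz Q q m z := by
  unfold hz
  apply mul_pos
  · exact pow_pos (norm_pos_iff.2 (aeval_ne_zero hq (not_cyc_dvd_deriv hq) hz')) _
  · apply prod_pos
    intro d hd
    rw [mem_erase] at hd
    exact pow_pos (norm_pos_iff.2 (aeval_ne_zero hq (not_cyc_dvd_cyc hq (Ne.symm hd.1)) hz')) _

theorem prod_hz {Q q : ℕ} (m : ℕ → ℕ) :
    ∏ z ∈ primitiveRoots q ℂ, hz Q q m z
      = Nm q (derivative (cyclotomic q ℤ)) ^ m q
        * ∏ d ∈ (Icc 1 Q).erase q, Nm q (cyclotomic d ℤ) ^ m d := by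
  unfold hz Nm
  rw [prod_mul_distrib, prod_pow, prod_comm]
  congr 1
  apply prod_congr rfl
  intro d _
  rw [prod_pow]

theorem taylor_bound {n Q q : ℕ} (hq : q ∈ Icc 1 Q) (m : ℕ → ℕ) (A : ℤ[X])
    (hdeg : (Gm Q m * A).natDegree ≤ n) (hc : ∀ i, |(Gm Q m * A).coeff i| ≤ 1) {z : ℂ}
    (hz' : z ∈ primitiveRoots q ℂ) :
    ‖aeval z A‖ ≤ ((n + 1).choose (m q + 1) : ℝ) / hz Q q m z := by
  have hq0 : 0 < q := (mem_Icc.1 hq).1
  have hpos := hz_pos (Q := Q) hq0 m hz'
  rw [le_div_iff₀ hpos]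
  refine le_trans (le_of_eq ?_) (hasse_bound (Gm Q m * A) hdeg hc (m q) (norm_prim hq0 hz'))
  -- factor the cyclotomic polynomial
  have hroot : (cyclotomic q ℂ).IsRoot z := by
    have : NeZero (q : ℂ) := ⟨by exact_mod_cast hq0.ne'⟩
    rw [isRoot_cyclotomic_iff]
    exact (mem_primitiveRoots hq0).1 hz'
  obtain ⟨Ψ, hΨ⟩ := dvd_iff_isRoot.2 hroot
  have hΨz : Ψ.eval z = aeval z (derivative (cyclotomic q ℤ)) := by
    have h1 := congrArg derivative hΨ
    rw [derivative_mul, derivative_sub, derivative_X, derivative_C, sub_zero, one_mul] at h1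
    have h2 := congrArg (eval z) h1
    rw [eval_add, eval_mul, eval_sub, eval_X, eval_C, sub_self, zero_mul, add_zero] at h2
    rw [← h2, ← map_cyclotomic_int q ℂ, derivative_map, eval_map, aeval_def]
    rfl
  have hG : (Gm Q m * A).map (Int.castRingHom ℂ)
      = (X - C z) ^ m q * (Ψ ^ m q * ((∏ d ∈ (Icc 1 Q).erase q, (cyclotomic d ℂ) ^ m d)
        * A.map (Int.castRingHom ℂ))) := by
    rw [Polynomial.map_mul]
    unfold Gm
    rw [Polynomial.map_prod, ← mul_prod_erase _ _ hq]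
    simp only [Polynomial.map_pow, map_cyclotomic_int]
    rw [hΨ, mul_pow]
    ring
  rw [hG, taylor_mul, taylor_pow, map_sub, taylor_X, taylor_C, add_sub_cancel_right,
    coeff_X_pow_mul', if_pos le_rfl, Nat.sub_self, taylor_coeff_zero, eval_mul, eval_pow, eval_mul,
    eval_prod, hΨz, norm_mul, norm_mul, norm_pow, norm_prod]
  unfold hz
  have h3 : ‖eval z (A.map (Int.castRingHom ℂ))‖ = ‖aeval z A‖ := by
    rw [eval_map, aeval_def]
    rfl
  have h4 : ∏ d ∈ (Icc 1 Q).erase q, ‖eval z ((cyclotomic d ℂ) ^ m d)‖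
      = ∏ d ∈ (Icc 1 Q).erase q, ‖aeval z (cyclotomic d ℤ)‖ ^ m d := by
    apply prod_congr rfl
    intro d _
    rw [eval_pow, norm_pow, ← map_cyclotomic_int d ℂ, eval_map, aeval_def]
    rfl
  rw [h3, h4]
  ring

theorem monic_Gm (Q : ℕ) (m : ℕ → ℕ) : (Gm Q m).Monic :=
  monic_prod_of_monic _ _ fun d _ => (cyclotomic.monic d ℤ).pow _

theorem mem_BP {n : ℕ} {P : ℤ[X]} (hP : P ∈ BP n) :
    P.natDegree ≤ n ∧ ∀ i, P.coeff i = 0 ∨ P.coeff i = 1 := by
  unfold BP at hP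
  rw [mem_image] at hP
  obtain ⟨A, hA, rfl⟩ := hP
  rw [mem_powerset] at hA
  constructor
  · apply natDegree_sum_le_of_forall_le
    intro j hj
    have := mem_range.1 (hA hj)
    rw [natDegree_X_pow]
    omega
  · intro i
    rw [finsetSum_coeff]
    simp only [coeff_X_pow]
    rw [sum_ite_eq]
    split_ifs
    · right; rfl
    · left; rfl

theorem card_BP (n : ℕ) : (BP n).card = 2 ^ (n + 1) := by
  unfold BP
  rw [card_image_of_injective, card_powerset, card_range]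
  intro A B h
  ext i
  have h1 := congrArg (fun P : ℤ[X] => P.coeff i) h
  simp only [finsetSum_coeff, coeff_X_pow, sum_ite_eq] at h1
  by_cases hA : i ∈ A <;> by_cases hB : i ∈ B <;> simp [hA, hB] at h1 ⊢

theorem diff_BP {n : ℕ} {P P' : ℤ[X]} (hP : P ∈ BP n) (hP' : P' ∈ BP n) :
    (P - P').natDegree ≤ n ∧ ∀ i, |(P - P').coeff i| ≤ 1 := by
  obtain ⟨h1, h2⟩ := mem_BP hP
  obtain ⟨h3, h4⟩ := mem_BP hP'
  constructor
  · exact (natDegree_sub_le _ _).trans (max_le h1 h3)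
  · intro i
    rw [coeff_sub]
    rcases h2 i with h | h <;> rcases h4 i with h' | h' <;> rw [h, h'] <;> norm_num

theorem cls_pos (n : ℕ) (G : ℤ[X]) : 0 < cls n G := by
  unfold cls
  rw [card_pos, image_nonempty, ← card_pos, card_BP]
  positivity

/-- The basic step. -/
theorem cls_mul_le {n Q q : ℕ} (hq : q ∈ Icc 1 Q) (m : ℕ → ℕ) (hm : m q ≤ n)
    (T : ℕ) (hT : 0 < T)
    (hV : (2 / T : ℝ) ^ q.totient
      * ∏ z ∈ primitiveRoots q ℂ, ((n + 1).choose (m q + 1) : ℝ) / hz Q q m z < 1) :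
    cls n (Gm Q m * cyclotomic q ℤ) ≤ ((2 * T + 1) ^ 2) ^ q.totient * cls n (Gm Q m) := by
  classical
  have hq0 : 0 < q := (mem_Icc.1 hq).1
  set G := Gm Q m with hGdef
  have hGm : G.Monic := monic_Gm Q m
  have hGP : (G * cyclotomic q ℤ).Monic := hGm.mul (cyclotomic.monic q ℤ)
  set S := (BP n).image (fun P => P %ₘ (G * cyclotomic q ℤ)) with hS
  have hmod : ∀ P : ℤ[X], (P %ₘ (G * cyclotomic q ℤ)) %ₘ G = P %ₘ G := by
    intro P
    have h1 := modByMonic_add_div P (G * cyclotomic q ℤ)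
    have h2 : P %ₘ (G * cyclotomic q ℤ) = P + G * (-(cyclotomic q ℤ * (P /ₘ (G * cyclotomic q ℤ)))) := by
      linear_combination h1
    rw [h2, add_modByMonic, (modByMonic_eq_zero_iff_dvd hGm).2 (dvd_mul_right _ _), add_zero]
  have hSim : S.image (fun P => P %ₘ G) = (BP n).image (fun P => P %ₘ G) := by
    rw [hS, image_image]
    apply image_congr
    intro P _
    exact hmod P
  have hgoal : S.card ≤ ((2 * T + 1) ^ 2) ^ q.totient * (S.image (fun P => P %ₘ G)).card := by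
    apply card_le_mul_card_image
    intro c hc
    set F := S.filter (fun x => x %ₘ G = c) with hF
    have hex : ∀ ρ : ℤ[X], ρ ∈ F → ∃ P ∈ BP n, P %ₘ (G * cyclotomic q ℤ) = ρ := by
      intro ρ hρ
      rw [hF, mem_filter, hS, mem_image] at hρ
      exact hρ.1
    choose! P hPB hPρ using hex
    rcases F.eq_empty_or_nonempty with hemp | ⟨ρ0, hρ0⟩
    · rw [hemp]; simp
    have hG1 : ∀ ρ ∈ F, ∀ ρ' ∈ F, G ∣ P ρ - P ρ' := by
      intro ρ hρ ρ' hρ'
      rw [← modByMonic_eq_zero_iff_dvd hGm, sub_modByMonic]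
      have h1 : P ρ %ₘ G = c := by
        rw [← hmod, hPρ ρ hρ]
        exact (mem_filter.1 hρ).2
      have h2 : P ρ' %ₘ G = c := by
        rw [← hmod, hPρ ρ' hρ']
        exact (mem_filter.1 hρ').2
      rw [h1, h2, sub_self]
    have hex2 : ∀ ρ : ℤ[X], ρ ∈ F → ∃ R : ℤ[X], P ρ - P ρ0 = G * R := fun ρ hρ => hG1 ρ hρ ρ0 hρ0
    choose! R hR using hex2
    have hRd : ∀ ρ ∈ F, ∀ ρ' ∈ F, G * (R ρ - R ρ') = P ρ - P ρ' := by
      intro ρ hρ ρ' hρ'
      rw [mul_sub, ← hR ρ hρ, ← hR ρ' hρ']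
      ring
    apply pack hq0 F R (fun z => ((n + 1).choose (m q + 1) : ℝ) / hz Q q m z) ?_ ?_ ?_ T hT hV
    · intro z hz'
      apply div_pos _ (hz_pos hq0 m hz')
      exact_mod_cast Nat.choose_pos (by omega)
    · intro ρ hρ ρ' hρ' z hz'
      apply taylor_bound hq m _ _ _ hz'
      · rw [← hGdef, hRd ρ hρ ρ' hρ']
        exact (diff_BP (hPB ρ hρ) (hPB ρ' hρ')).1
      · rw [← hGdef, hRd ρ hρ ρ' hρ']
        exact (diff_BP (hPB ρ hρ) (hPB ρ' hρ')).2
    · intro ρ hρ ρ' hρ' hne hdvd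
      apply hne
      have h1 : G * cyclotomic q ℤ ∣ P ρ - P ρ' := by
        rw [← hRd ρ hρ ρ' hρ']
        exact mul_dvd_mul_left G hdvd
      rw [← modByMonic_eq_zero_iff_dvd hGP, sub_modByMonic, sub_eq_zero] at h1
      rw [← hPρ ρ hρ, ← hPρ ρ' hρ', h1]
  rw [hSim] at hgoal
  exact hgoal

/-- The basic step, logarithmic form. -/
theorem log_cls_step {n Q q : ℕ} (hq : q ∈ Icc 1 Q) (m : ℕ → ℕ) (hm : m q ≤ n) :
    Real.log (cls n (Gm Q m * cyclotomic q ℤ))
      ≤ Real.log (cls n (Gm Q m)) + 4 * q.totient + 2 * max 0 (LV n Q q m) := by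
  have hq0 : 0 < q := (mem_Icc.1 hq).1
  have hφ : 0 < q.totient := Nat.totient_pos.2 hq0
  have hφ' : (0 : ℝ) < q.totient := by exact_mod_cast hφ
  set b : ℝ := ((n + 1).choose (m q + 1) : ℝ) with hb
  have hbpos : 0 < b := by
    rw [hb]
    exact_mod_cast Nat.choose_pos (by omega)
  set V : ℝ := ∏ z ∈ primitiveRoots q ℂ, b / hz Q q m z with hV
  have hVpos : 0 < V := prod_pos fun z hz' => div_pos hbpos (hz_pos hq0 m hz')
  have hlogV : Real.log V = LV n Q q m := by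
    rw [hV, prod_div_distrib, prod_const, Complex.card_primitiveRoots, prod_hz]
    have h1 : 0 < Nm q (derivative (cyclotomic q ℤ)) :=
      lt_of_lt_of_le one_pos (one_le_Nm_deriv hq0)
    have h2 : ∀ d ∈ (Icc 1 Q).erase q, 0 < Nm q (cyclotomic d ℤ) := by
      intro d hd
      rw [mem_erase] at hd
      exact lt_of_lt_of_le one_pos (one_le_Nm_cyc hq0 (Ne.symm hd.1))
    rw [Real.log_div (pow_pos hbpos _).ne'
      (mul_pos (pow_pos h1 _) (prod_pos fun d hd => pow_pos (h2 d hd) _)).ne',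
      Real.log_mul (pow_pos h1 _).ne' (prod_pos fun d hd => pow_pos (h2 d hd) _).ne',
      Real.log_pow, Real.log_pow, Real.log_prod (fun d hd => (pow_pos (h2 d hd) _).ne')]
    unfold LV
    simp only [Real.log_pow]
    ring
  -- choice of `T`
  set v : ℝ := Real.exp (max 0 (LV n Q q m) / q.totient) with hv
  have hv1 : 1 ≤ v := Real.one_le_exp (div_nonneg (le_max_left _ _) hφ'.le)
  set T : ℕ := ⌊2 * v⌋₊ + 1 with hTdef
  have hT : 0 < T := Nat.succ_pos _
  have hT1 : 2 * v < T := by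
    rw [hTdef]
    push_cast
    exact Nat.lt_floor_add_one _
  have hT2 : (T : ℝ) ≤ 3 * v := by
    rw [hTdef]
    push_cast
    have := Nat.floor_le (a := 2 * v) (by linarith)
    linarith
  have hT' : (0 : ℝ) < T := by exact_mod_cast hT
  have hVle : V ≤ v ^ q.totient := by
    rw [hv, ← Real.exp_nat_mul, ← Real.log_le_iff_le_exp hVpos, hlogV,
      mul_div_cancel₀ _ hφ'.ne']
    exact le_max_right _ _
  have hcond : (2 / T : ℝ) ^ q.totient * V < 1 := by
    calc (2 / T : ℝ) ^ q.totient * V ≤ (2 / T : ℝ) ^ q.totient * v ^ q.totient := by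
          apply mul_le_mul_of_nonneg_left hVle
          positivity
      _ = (2 * v / T) ^ q.totient := by
          rw [← mul_pow]
          congr 1
          ring
      _ < 1 := by
          apply pow_lt_one₀
          · positivity
          · rw [div_lt_one hT']
            exact hT1
          · exact hφ.ne'
  have hstep := cls_mul_le hq m hm T hT hcond
  have hc1 : (0 : ℝ) < cls n (Gm Q m * cyclotomic q ℤ) := by exact_mod_cast cls_pos _ _
  have hc2 : (0 : ℝ) < cls n (Gm Q m) := by exact_mod_cast cls_pos _ _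
  have hstep' : (cls n (Gm Q m * cyclotomic q ℤ) : ℝ)
      ≤ (((2 * T + 1 : ℝ) ^ 2) ^ q.totient) * cls n (Gm Q m) := by exact_mod_cast hstep
  have h3 : (2 * (T : ℝ) + 1) ≤ 7 * v := by linarith
  have h4 : (((2 * T + 1 : ℝ) ^ 2) ^ q.totient) ≤ (((7 * v) ^ 2) ^ q.totient) := by
    apply pow_le_pow_left₀ (by positivity)
    apply pow_le_pow_left₀ (by positivity) h3
  have h5 := Real.log_le_log hc1 (hstep'.trans (mul_le_mul_of_nonneg_right h4 hc2.le))
  rw [Real.log_mul (by positivity) hc2.ne', Real.log_pow, Real.log_pow, Real.log_mul (by norm_num)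
    (by positivity), hv, Real.log_exp] at h5
  have h7 : Real.log 7 ≤ 2 := by
    rw [Real.log_le_iff_le_exp (by norm_num)]
    have := Real.add_one_le_exp (1 : ℝ)
    have h8 : Real.exp 2 = Real.exp 1 * Real.exp 1 := by rw [← Real.exp_add]; norm_num
    have h9 := Real.exp_one_gt_d9
    rw [h8]
    nlinarith
  push_cast at h5
  have h10 : (q.totient : ℝ) * (2 * (Real.log 7 + max 0 (LV n Q q m) / q.totient))
      = 2 * q.totient * Real.log 7 + 2 * max 0 (LV n Q q m) := by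
    field_simp
  rw [h10] at h5
  nlinarith

end

end Pool.Agent.H35.V1
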