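import Pool.Agent.H35.V1.UBound

/-!
The total number of classes after all rounds.
-/

namespace Pool.Agent.H35.V1

open Polynomial Finset

noncomputable section

theorem totient_sq {q : ℕ} (hq : Squarefree q) :
    (q.totient : ℝ) = ∏ p ∈ q.primeFactors, ((p : ℝ) - 1) := by
  have h1 := Nat.totient_eq_div_primeFactors_mul q
  rw [Nat.prod_primeFactors_of_squarefree hq, Nat.div_self (Nat.pos_of_ne_zero hq.ne_zero),
    one_mul] at h1
  rw [h1]
  push_cast
  apply prod_congr rfl
  intro p hp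
  rw [Nat.cast_sub (Nat.prime_of_mem_primeFactors hp).one_lt.le]
  simp

theorem mass_le_prod (Q : ℕ) (w : ℕ → ℕ) (r : ℕ) :
    ∑ q ∈ RR Q w r, 1 / (q.totient : ℝ) ≤ ∏ p ∈ PPr (w r) Q, (1 + 1 / ((p : ℝ) - 1)) := by
  have hinj : Set.InjOn Nat.primeFactors (RR Q w r : Set ℕ) := by
    intro q hq q' hq' h
    have h1 := (mem_RR.1 (mem_coe.1 hq)).2.1
    have h2 := (mem_RR.1 (mem_coe.1 hq')).2.1
    rw [← Nat.prod_primeFactors_of_squarefree h1, ← Nat.prod_primeFactors_of_squarefree h2, h]
  have hnn : ∀ p ∈ PPr (w r) Q, (0 : ℝ) ≤ 1 / ((p : ℝ) - 1) := by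
    intro p hp
    rw [mem_PPr] at hp
    have : (1 : ℝ) < p := by exact_mod_cast hp.2.one_lt
    apply div_nonneg zero_le_one
    linarith
  calc ∑ q ∈ RR Q w r, 1 / (q.totient : ℝ)
      = ∑ q ∈ RR Q w r, ∏ p ∈ q.primeFactors, 1 / ((p : ℝ) - 1) := by
        apply sum_congr rfl
        intro q hq
        rw [totient_sq (mem_RR.1 hq).2.1, prod_div_distrib, prod_const_one]
    _ = ∑ A ∈ (RR Q w r).image Nat.primeFactors, ∏ p ∈ A, 1 / ((p : ℝ) - 1) := by
        rw [sum_image (fun x hx y hy h => hinj hx hy h)]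
    _ ≤ ∑ A ∈ (PPr (w r) Q).powerset, ∏ p ∈ A, 1 / ((p : ℝ) - 1) := by
        apply sum_le_sum_of_subset_of_nonneg
        · intro A hA
          rw [mem_image] at hA
          obtain ⟨q, hq, rfl⟩ := hA
          rw [mem_RR] at hq
          rw [mem_powerset]
          intro p hp
          rw [mem_PPr]
          exact ⟨⟨hq.2.2 p hp, (Nat.le_of_mem_primeFactors hp).trans hq.1.2⟩,
            Nat.prime_of_mem_primeFactors hp⟩
        · intro A hA _
          apply prod_nonneg
          intro p hp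
          exact hnn p (mem_powerset.1 hA hp)
    _ = ∏ p ∈ PPr (w r) Q, (1 + 1 / ((p : ℝ) - 1)) := (prod_one_add _).symm

theorem exists_mass : ∃ C : ℝ, 1 ≤ C ∧ ∀ (n Q : ℕ) (w : ℕ → ℕ) (r : ℕ), 3 ≤ w r → w r ≤ n →
    Q ≤ n → ∑ q ∈ RR Q w r, 1 / (q.totient : ℝ) ≤ C * (Real.log n / Real.log (w r)) := by
  obtain ⟨C, hC, h⟩ := exists_mertens_prod
  refine ⟨max C 1, le_max_right _ _, fun n Q w r hw hwn hQn => ?_⟩
  refine (mass_le_prod Q w r).trans ?_
  have hw3 : (3 : ℝ) ≤ w r := by exact_mod_cast hw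
  have hlw : 0 < Real.log (w r) := Real.log_pos (by linarith)
  have hlwn : Real.log (w r) ≤ Real.log n := Real.log_le_log (by linarith) (by exact_mod_cast hwn)
  rcases le_total (w r) Q with hc | hc
  · refine (h (w r) Q hw hc).trans ?_
    have hQ0 : (0 : ℝ) < Q := by exact_mod_cast (by omega : 0 < Q)
    have h1 : Real.log Q ≤ Real.log n := Real.log_le_log hQ0 (by exact_mod_cast hQn)
    have h2 : Real.log Q / Real.log (w r) ≤ Real.log n / Real.log (w r) :=
      div_le_div_of_nonneg_right h1 hlw.le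
    have h3 : 0 ≤ Real.log n / Real.log (w r) := div_nonneg (by linarith) hlw.le
    calc C * (Real.log Q / Real.log (w r)) ≤ C * (Real.log n / Real.log (w r)) :=
          mul_le_mul_of_nonneg_left h2 hC.le
      _ ≤ max C 1 * (Real.log n / Real.log (w r)) :=
          mul_le_mul_of_nonneg_right (le_max_left _ _) h3
  · have hemp : PPr (w r) Q = ∅ := by
      ext p
      rw [mem_PPr]
      simp only [notMem_empty, iff_false]
      rintro ⟨⟨h1, h2⟩, _⟩
      omega
    rw [hemp, prod_empty]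
    have h1 : 1 ≤ Real.log n / Real.log (w r) := by
      rw [le_div_iff₀ hlw]
      linarith
    calc (1 : ℝ) ≤ 1 * (Real.log n / Real.log (w r)) := by linarith
      _ ≤ max C 1 * (Real.log n / Real.log (w r)) :=
          mul_le_mul_of_nonneg_right (le_max_right _ _) (by linarith)

theorem cls_one (n : ℕ) : cls n 1 = 1 := by
  unfold cls
  have : (BP n).image (fun P => P %ₘ (1 : ℤ[X])) = {0} := by
    rw [eq_singleton_iff_unique_mem]
    constructor
    · rw [mem_image]
      obtain ⟨P, hP⟩ : (BP n).Nonempty := by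
        rw [← card_pos, card_BP]
        positivity
      exact ⟨P, hP, modByMonic_one P⟩
    · intro x hx
      rw [mem_image] at hx
      obtain ⟨P, _, rfl⟩ := hx
      exact modByMonic_one P
  rw [this, card_singleton]

theorem Gm_zero (Q k0 : ℕ) (w : ℕ → ℕ) : Gm Q (mu Q k0 w 0) = 1 := by
  unfold Gm mu
  simp

/-- The bound after all rounds. -/
theorem log_cls_total {n Q k0 J M : ℕ} {w : ℕ → ℕ} (hw : Monotone w) (hw0 : 3 ≤ w 0) {C : ℝ}
    (hC : ∀ w x : ℕ, 0 < w → 0 < x →
      Real.log x - Real.log w - C ≤ ∑ p ∈ PPr w x, Real.log p / p)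
    {C2 : ℝ} (hC2 : 1 ≤ C2) (hmass : ∀ (n Q : ℕ) (w : ℕ → ℕ) (r : ℕ), 3 ≤ w r → w r ≤ n →
    Q ≤ n → ∑ q ∈ RR Q w r, 1 / (q.totient : ℝ) ≤ C2 * (Real.log n / Real.log (w r)))
    (hk : 5 * J * Q ≤ k0) (hkn : k0 * J ≤ n) (hL : 2 ≤ Real.log n)
    (hH2 : Real.log n - Real.log k0 - Real.log Q + C + 5 ≤ Real.log (w 0))
    (hH3 : Real.log n ≤ w 0) (hM : Real.log n ≤ M * Real.log (w 0))
    (hwn : ∀ r < J, w r ≤ n)
    (hsum : ∀ r < J, ∑ r' ∈ range r, Real.log (w r') ≤ 2 * M * Real.log (w r))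
    (hk0 : 0 < k0) (hJ : 0 < J) (hM0 : 0 < M) :
    Real.log (cls n (Gm Q (mu Q k0 w J))) ≤ 15 * C2 * k0 ^ 2 * Real.log n * M * J := by
  set L := Real.log n with hLdef
  have hk0' : (0 : ℝ) < k0 := by exact_mod_cast hk0
  have hJ1 : (1 : ℝ) ≤ J := by exact_mod_cast hJ
  have hM1 : (1 : ℝ) ≤ M := by exact_mod_cast hM0
  have hk0n : k0 ≤ n := by nlinarith
  have hQn : Q ≤ n := by nlinarith
  have hw0' : (3 : ℝ) ≤ w 0 := by exact_mod_cast hw0
  have hlw0 : 0 < Real.log (w 0) := Real.log_pos (by linarith)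
  have hwr : ∀ r, 3 ≤ w r := fun r => hw0.trans (hw (Nat.zero_le r))
  have hlw : ∀ r, Real.log (w 0) ≤ Real.log (w r) := fun r =>
    Real.log_le_log (by linarith) (by exact_mod_cast hw (Nat.zero_le r))
  -- one round
  have hround : ∀ r < J, Real.log (cls n (Gm Q (mu Q k0 w (r + 1))))
      ≤ Real.log (cls n (Gm Q (mu Q k0 w r))) + (4 * k0 * Q + 14 * C2 * k0 ^ 2 * L * M) := by
    intro r hr
    set U : ℝ := k0 * (2 * ∑ r' ∈ range r, Real.log (w r') + 3 * L) with hU
    have hS0 : 0 ≤ ∑ r' ∈ range r, Real.log (w r') :=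
      sum_nonneg fun r' _ => Real.log_natCast_nonneg _
    have hU0 : 0 ≤ U := by
      rw [hU]
      apply mul_nonneg hk0'.le
      linarith
    have hstep := log_cls_round (n := n) (Q := Q) hU0 (mu Q k0 w (r + 1)) (by
      intro q hq
      rw [mem_Icc] at hq
      have h1 : mu Q k0 w (r + 1) q ≤ k0 * (r + 1) := by
        unfold mu
        apply Nat.mul_le_mul (Nat.div_le_self _ _)
        refine (card_filter_le _ _).trans ?_
        rw [card_range]
      have h2 : k0 * (r + 1) ≤ k0 * J := Nat.mul_le_mul_left k0 hr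
      omega) (mu Q k0 w r) (mu_le_succ Q k0 w r) (by
      intro μ h1 h2 q _ hlt
      exact LV_le hw (by omega) hC hr hk hkn hL hH2 hH3 μ h1 hlt)
    refine hstep.trans ?_
    rw [add_le_add_iff_left]
    have hdiff : ∀ q ∈ Icc 1 Q, ((mu Q k0 w (r + 1) q - mu Q k0 w r q : ℕ) : ℝ)
        * (4 * q.totient + 2 * U)
        = if q ∈ RR Q w r then ((k0 / q.totient : ℕ) : ℝ) * (4 * q.totient + 2 * U) else 0 := by
      intro q _
      rw [mu_succ, Nat.add_sub_cancel_left]
      split_ifs <;> simp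
    rw [sum_congr rfl hdiff, ← sum_filter]
    have hfil : (Icc 1 Q).filter (fun q => q ∈ RR Q w r) = RR Q w r := by
      ext q
      rw [mem_filter]
      constructor
      · exact fun h => h.2
      · intro h
        exact ⟨mem_Icc.2 (mem_RR.1 h).1, h⟩
    rw [hfil]
    have hpt : ∀ q ∈ RR Q w r, ((k0 / q.totient : ℕ) : ℝ) * (4 * q.totient + 2 * U)
        ≤ 4 * k0 + 2 * U * k0 * (1 / (q.totient : ℝ)) := by
      intro q hq
      have hφ : 0 < q.totient := Nat.totient_pos.2 (mem_RR.1 hq).1.1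
      have hφ' : (0 : ℝ) < q.totient := by exact_mod_cast hφ
      have h1 : ((k0 / q.totient : ℕ) : ℝ) ≤ k0 / q.totient := Nat.cast_div_le
      calc ((k0 / q.totient : ℕ) : ℝ) * (4 * q.totient + 2 * U)
          ≤ (k0 / q.totient) * (4 * q.totient + 2 * U) := by
            apply mul_le_mul_of_nonneg_right h1
            positivity
        _ = _ := by
            field_simp
    refine (sum_le_sum hpt).trans ?_
    rw [sum_add_distrib, sum_const, ← mul_sum, nsmul_eq_mul]
    have hcard : ((RR Q w r).card : ℝ) ≤ Q := by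
      have : (RR Q w r).card ≤ (Icc 1 Q).card := card_filter_le _ _
      rw [Nat.card_Icc, Nat.add_sub_cancel] at this
      exact_mod_cast this
    have hm := hmass n Q w r (hwr r) (hwn r hr) hQn
    have hlwr : 0 < Real.log (w r) := lt_of_lt_of_le hlw0 (hlw r)
    have hUle : U ≤ k0 * (7 * M * Real.log (w r)) := by
      rw [hU]
      apply mul_le_mul_of_nonneg_left _ hk0'.le
      have h1 := hsum r hr
      have h2 : L ≤ M * Real.log (w r) := hM.trans (mul_le_mul_of_nonneg_left (hlw r) (by linarith))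
      linarith
    have h3 : 2 * U * k0 * ∑ q ∈ RR Q w r, 1 / (q.totient : ℝ)
        ≤ 14 * C2 * k0 ^ 2 * L * M := by
      calc 2 * U * k0 * ∑ q ∈ RR Q w r, 1 / (q.totient : ℝ)
          ≤ 2 * U * k0 * (C2 * (L / Real.log (w r))) := by
            apply mul_le_mul_of_nonneg_left hm
            positivity
        _ ≤ 2 * (k0 * (7 * M * Real.log (w r))) * k0 * (C2 * (L / Real.log (w r))) := by
            apply mul_le_mul_of_nonneg_right
            · apply mul_le_mul_of_nonneg_right _ hk0'.le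
              linarith
            · positivity
        _ = 14 * C2 * k0 ^ 2 * L * M := by
            field_simp
            ring
    have h4 : ((RR Q w r).card : ℝ) * (4 * k0) ≤ 4 * k0 * Q := by nlinarith
    linarith
  -- induction over the rounds
  have hind : ∀ r ≤ J, Real.log (cls n (Gm Q (mu Q k0 w r)))
      ≤ r * (4 * k0 * Q + 14 * C2 * k0 ^ 2 * L * M) := by
    intro r
    induction r with
    | zero =>
      intro _
      rw [Gm_zero, cls_one]
      simp
    | succ r ih =>
      intro hr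
      have h1 := ih (by omega)
      have h2 := hround r (by omega)
      push_cast
      linarith
  have hJJ := hind J le_rfl
  refine hJJ.trans ?_
  have hQ5 : (J : ℝ) * (4 * k0 * Q) ≤ k0 ^ 2 := by
    have h1 : 5 * (J : ℝ) * Q ≤ k0 := by exact_mod_cast hk
    have h2 : (0 : ℝ) ≤ J * Q := by positivity
    nlinarith
  have hbig : (k0 : ℝ) ^ 2 ≤ C2 * k0 ^ 2 * L * M * J := by
    have h1 : 1 ≤ C2 * L * M * J := by
      have h2 : 1 ≤ C2 * L := by nlinarith
      have h3 : 1 ≤ C2 * L * M := by nlinarith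
      nlinarith
    have h4 : (0 : ℝ) ≤ (k0 : ℝ) ^ 2 := by positivity
    calc (k0 : ℝ) ^ 2 = k0 ^ 2 * 1 := by ring
      _ ≤ k0 ^ 2 * (C2 * L * M * J) := mul_le_mul_of_nonneg_left h1 h4
      _ = _ := by ring
  linarith

/-- The geometric sum over the rounds. -/
theorem sum_two_pow_div (M : ℕ) (hM : 0 < M) (r : ℕ) :
    ∑ r' ∈ range r, 2 ^ (r' / M) ≤ (M + r % M) * 2 ^ (r / M) := by
  induction r with
  | zero => simp
  | succ r ih =>
    rw [sum_range_succ]
    have h1 := Nat.div_add_mod r M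
    have h2 := Nat.mod_lt r hM
    rcases Nat.lt_or_ge (r % M + 1) M with h | h
    · have h3 : (r + 1) / M = r / M := by
        have e : r + 1 = M * (r / M) + (r % M + 1) := by omega
        rw [e, Nat.mul_add_div hM, Nat.div_eq_of_lt h, Nat.add_zero]
      have h4 : (r + 1) % M = r % M + 1 := by
        have h5 := Nat.div_add_mod (r + 1) M
        rw [h3] at h5
        omega
      rw [h3, h4]
      nlinarith
    · have h6 : r % M + 1 = M := by omega
      have h7 : r + 1 = M * (r / M + 1) := by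
        rw [Nat.mul_add, Nat.mul_one]
        omega
      have h3 : (r + 1) / M = r / M + 1 := by
        rw [h7, Nat.mul_div_cancel_left _ hM]
      have h4 : (r + 1) % M = 0 := by
        rw [h7, Nat.mul_mod_right]
      rw [h3, h4, pow_succ]
      have h8 : M + r % M + 1 = M + M := by omega
      calc ∑ x ∈ range r, 2 ^ (x / M) + 2 ^ (r / M)
          ≤ (M + r % M) * 2 ^ (r / M) + 2 ^ (r / M) := Nat.add_le_add_right ih _
        _ = (M + r % M + 1) * 2 ^ (r / M) := by ring
        _ = (M + M) * 2 ^ (r / M) := by rw [h8]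
        _ = (M + 0) * (2 ^ (r / M) * 2) := by ring

end

end Pool.Agent.H35.V1
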