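import Pool.Agent.H35.V1.Params

/-!
The bound for the volume in round `r`.
-/

namespace Pool.Agent.H35.V1

open Polynomial Finset

noncomputable section

/-- Primes `p ≤ Q / q` that do not divide `q`. -/
def P2 (Q q : ℕ) : Finset ℕ := (PPr 0 (Q / q)).filter (fun p => ¬ p ∣ q)

theorem mem_P2 {Q q p : ℕ} : p ∈ P2 Q q ↔ (p ≤ Q / q ∧ p.Prime) ∧ ¬ p ∣ q := by
  unfold P2
  rw [mem_filter, mem_PPr]
  constructor
  · rintro ⟨⟨⟨_, h1⟩, h2⟩, h3⟩
    exact ⟨⟨h1, h2⟩, h3⟩
  · rintro ⟨⟨h1, h2⟩, h3⟩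
    exact ⟨⟨⟨h2.pos, h1⟩, h2⟩, h3⟩

theorem div_spec {q p : ℕ} (hsq : Squarefree q) (hp : p ∈ q.primeFactors) :
    q / p * p = q ∧ 0 < q / p ∧ ¬ p ∣ q / p ∧ q / p < q := by
  have hpp := Nat.prime_of_mem_primeFactors hp
  have hpq := Nat.dvd_of_mem_primeFactors hp
  have hq0 : 0 < q := Nat.pos_of_ne_zero hsq.ne_zero
  have h1 : q / p * p = q := Nat.div_mul_cancel hpq
  refine ⟨h1, Nat.div_pos (Nat.le_of_dvd hq0 hpq) hpp.pos, ?_, Nat.div_lt_self hq0 hpp.one_lt⟩
  intro h
  have h2 : p * p ∣ q := by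
    rw [← h1]
    exact Nat.mul_dvd_mul_right h p
  exact hpp.one_lt.ne' (Nat.isUnit_iff.1 (hsq p h2))

/-- Lower bound for the interaction terms. -/
theorem interaction_ge {Q k0 : ℕ} {w : ℕ → ℕ} {r q : ℕ} (hq : q ∈ RR Q w r)
    (μ : ℕ → ℕ) (h1 : ∀ d, mu Q k0 w r d ≤ μ d) :
    ∑ p ∈ q.primeFactors, (mu Q k0 w r (q / p) : ℝ) * ((q / p).totient * Real.log p)
      + ∑ p ∈ P2 Q q, (mu Q k0 w r (q * p) : ℝ) * (q.totient * Real.log p)
    ≤ ∑ d ∈ (Icc 1 Q).erase q, (μ d : ℝ) * Real.log (Nm q (cyclotomic d ℤ)) := by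
  have hq' := mem_RR.1 hq
  have hq0 : 0 < q := hq'.1.1
  have hsq := hq'.2.1
  have hterm : ∀ d ∈ (Icc 1 Q).erase q, 0 ≤ (μ d : ℝ) * Real.log (Nm q (cyclotomic d ℤ)) := by
    intro d hd
    rw [mem_erase] at hd
    exact mul_nonneg (Nat.cast_nonneg _) (Real.log_nonneg (one_le_Nm_cyc hq0 (Ne.symm hd.1)))
  set D1 := q.primeFactors.image (fun p => q / p) with hD1
  set D2 := (P2 Q q).image (fun p => q * p) with hD2
  have hlt1 : ∀ d ∈ D1, 0 < d ∧ d < q := by
    intro d hd
    rw [hD1, mem_image] at hd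
    obtain ⟨p, hp, rfl⟩ := hd
    have := div_spec hsq hp
    exact ⟨this.2.1, this.2.2.2⟩
  have hlt2 : ∀ d ∈ D2, q < d ∧ d ≤ Q := by
    intro d hd
    rw [hD2, mem_image] at hd
    obtain ⟨p, hp, rfl⟩ := hd
    rw [mem_P2] at hp
    constructor
    · exact lt_mul_of_one_lt_right hq0 hp.1.2.one_lt
    · calc q * p ≤ q * (Q / q) := Nat.mul_le_mul_left q hp.1.1
        _ ≤ Q := Nat.mul_div_le Q q
  have hdisj : Disjoint D1 D2 := by
    rw [disjoint_left]
    intro d hd1 hd2
    have := hlt1 d hd1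
    have := hlt2 d hd2
    omega
  have hsub : D1 ∪ D2 ⊆ (Icc 1 Q).erase q := by
    intro d hd
    rw [mem_union] at hd
    rw [mem_erase, mem_Icc]
    rcases hd with hd | hd
    · have := hlt1 d hd
      omega
    · have := hlt2 d hd
      omega
  have hinj1 : Set.InjOn (fun p => q / p) q.primeFactors := by
    intro p hp p' hp' h
    have h1 := (div_spec hsq hp).1
    have h2 := (div_spec hsq hp').1
    have h : q / p = q / p' := h
    rw [h] at h1
    have h3 := (div_spec hsq hp').2.1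
    exact Nat.eq_of_mul_eq_mul_left h3 (h1.trans h2.symm)
  have hinj2 : Set.InjOn (fun p => q * p) (P2 Q q) := by
    intro p _ p' _ h
    exact Nat.eq_of_mul_eq_mul_left hq0 h
  calc ∑ p ∈ q.primeFactors, (mu Q k0 w r (q / p) : ℝ) * ((q / p).totient * Real.log p)
      + ∑ p ∈ P2 Q q, (mu Q k0 w r (q * p) : ℝ) * (q.totient * Real.log p)
      ≤ ∑ d ∈ D1, (μ d : ℝ) * Real.log (Nm q (cyclotomic d ℤ))
        + ∑ d ∈ D2, (μ d : ℝ) * Real.log (Nm q (cyclotomic d ℤ)) := by
        apply add_le_add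
        · rw [hD1, sum_image (fun x hx y hy h => hinj1 hx hy h)]
          apply sum_le_sum
          intro p hp
          have hs := div_spec hsq hp
          have hpp := Nat.prime_of_mem_primeFactors hp
          have hN : Nm q (cyclotomic (q / p) ℤ) = (p : ℝ) ^ (q / p).totient := by
            have := Nm_down hs.2.1 hpp hs.2.2.1
            rwa [hs.1] at this
          rw [hN, Real.log_pow]
          apply mul_le_mul_of_nonneg_right
          · exact_mod_cast h1 (q / p)
          · exact mul_nonneg (Nat.cast_nonneg _) (Real.log_natCast_nonneg p)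
        · rw [hD2, sum_image (fun x hx y hy h => hinj2 hx hy h)]
          apply sum_le_sum
          intro p hp
          rw [mem_P2] at hp
          rw [Nm_up hq0 hp.1.2 hp.2, Real.log_pow]
          apply mul_le_mul_of_nonneg_right
          · exact_mod_cast h1 (q * p)
          · exact mul_nonneg (Nat.cast_nonneg _) (Real.log_natCast_nonneg p)
    _ = ∑ d ∈ D1 ∪ D2, (μ d : ℝ) * Real.log (Nm q (cyclotomic d ℤ)) := (sum_union hdisj).symm
    _ ≤ _ := sum_le_sum_of_subset_of_nonneg hsub fun d hd _ => hterm d hd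

/-- Downward interactions. -/
theorem down_ge {Q k0 : ℕ} {w : ℕ → ℕ} (hw : Monotone w) {r q : ℕ} (hq : q ∈ RR Q w r) :
    (r : ℝ) * (k0 - Q) * Real.log q
      ≤ ∑ p ∈ q.primeFactors, (mu Q k0 w r (q / p) : ℝ) * ((q / p).totient * Real.log p) := by
  have hq' := mem_RR.1 hq
  have hsq := hq'.2.1
  rw [← sum_log_primeFactors hsq, mul_sum]
  apply sum_le_sum
  intro p hp
  have hs := div_spec hsq hp
  have hmem : ∀ r' < r, q / p ∈ RR Q w r' := fun r' hr' =>
    mem_RR_of_le hw hr'.le (mem_RR_of_dvd hq ⟨p, hs.1.symm⟩)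
  rw [mu_eq_of_mem hmem]
  have h1 := totient_mul_div_ge (k0 := k0) hs.2.1
  have h2 : ((q / p).totient : ℝ) ≤ Q := by
    exact_mod_cast (Nat.totient_le _).trans (hs.2.2.2.le.trans hq'.1.2)
  have h3 : (0 : ℝ) ≤ r * Real.log p := mul_nonneg (Nat.cast_nonneg _) (Real.log_natCast_nonneg p)
  push_cast
  calc (r : ℝ) * (k0 - Q) * Real.log p = (k0 - Q) * (r * Real.log p) := by ring
    _ ≤ (((k0 / (q / p).totient : ℕ) : ℝ) * (q / p).totient) * (r * Real.log p) := by
        apply mul_le_mul_of_nonneg_right _ h3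
        linarith
    _ = _ := by ring

/-- Upward interactions. -/
theorem up_ge {Q k0 : ℕ} {w : ℕ → ℕ} (hw : Monotone w) (hw0 : 0 < w 0) {r q : ℕ}
    (hq : q ∈ RR Q w r) (hlog : Real.log q ≤ w 0) {C : ℝ}
    (hC : ∀ w x : ℕ, 0 < w → 0 < x →
      Real.log x - Real.log w - C ≤ ∑ p ∈ PPr w x, Real.log p / p) :
    ∑ r' ∈ range r, ((k0 : ℝ) * (Real.log Q - Real.log q - Real.log (w r') - C - 2) - 2 * Q)
      ≤ ∑ p ∈ P2 Q q, (mu Q k0 w r (q * p) : ℝ) * (q.totient * Real.log p) := by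
  have hq' := mem_RR.1 hq
  have hq0 : 0 < q := hq'.1.1
  have hsq := hq'.2.1
  have hq0' : (0 : ℝ) < q := by exact_mod_cast hq0
  have hQ0 : 0 < Q := lt_of_lt_of_le hq0 hq'.1.2
  set x := Q / q with hx
  have hx0 : 0 < x := Nat.div_pos hq'.1.2 hq0
  -- rewrite the multiplicities as a sum over the rounds
  have hcount : ∀ p ∈ P2 Q q, (mu Q k0 w r (q * p) : ℝ)
      = ∑ r' ∈ range r, (if w r' < p then ((k0 / (q * p).totient : ℕ) : ℝ) else 0) := by
    intro p hp
    rw [mem_P2] at hp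
    have hiff : ∀ r' ∈ range r, (q * p ∈ RR Q w r' ↔ w r' < p) := by
      intro r' hr'
      rw [mem_range] at hr'
      have hq'' := mem_RR.1 (mem_RR_of_le hw hr'.le hq)
      rw [mem_RR]
      constructor
      · rintro ⟨_, _, h⟩
        apply h p
        rw [Nat.mem_primeFactors]
        exact ⟨hp.1.2, dvd_mul_left p q, (Nat.mul_pos hq0 hp.1.2.pos).ne'⟩
      · intro h
        refine ⟨⟨Nat.mul_pos hq0 hp.1.2.pos, ?_⟩, ?_, ?_⟩
        · calc q * p ≤ q * (Q / q) := Nat.mul_le_mul_left q hp.1.1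
            _ ≤ Q := Nat.mul_div_le Q q
        · rw [Nat.squarefree_mul (((Nat.Prime.coprime_iff_not_dvd hp.1.2).2 hp.2).symm)]
          exact ⟨hsq, hp.1.2.squarefree⟩
        · intro p' hp'
          rw [Nat.primeFactors_mul hq0.ne' hp.1.2.ne_zero, mem_union] at hp'
          rcases hp' with hp' | hp'
          · exact hq''.2.2 p' hp'
          · rw [hp.1.2.primeFactors, mem_singleton] at hp'
            rw [hp']
            exact h
    unfold mu
    rw [filter_congr hiff, ← sum_filter, sum_const, nsmul_eq_mul]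
    push_cast
    ring
  have hswap : ∑ p ∈ P2 Q q, (mu Q k0 w r (q * p) : ℝ) * (q.totient * Real.log p)
      = ∑ r' ∈ range r, ∑ p ∈ P2 Q q,
        (if w r' < p then ((k0 / (q * p).totient : ℕ) : ℝ) * (q.totient * Real.log p) else 0) := by
    rw [sum_comm]
    apply sum_congr rfl
    intro p hp
    rw [hcount p hp, sum_mul]
    apply sum_congr rfl
    intro r' _
    split_ifs <;> simp
  rw [hswap]
  apply sum_le_sum
  intro r' hr'
  rw [mem_range] at hr'
  have hwr' : 0 < w r' := lt_of_lt_of_le hw0 (hw (Nat.zero_le _))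
  have hq'' := mem_RR.1 (mem_RR_of_le hw hr'.le hq)
  rw [← sum_filter]
  -- pointwise lower bound
  have hpt : ∀ p ∈ (P2 Q q).filter (fun p => w r' < p),
      (k0 : ℝ) * (Real.log p / p) - q.totient * Real.log p
        ≤ ((k0 / (q * p).totient : ℕ) : ℝ) * (q.totient * Real.log p) := by
    intro p hp
    rw [mem_filter, mem_P2] at hp
    have hpp := hp.1.1.2
    have hcop : Nat.Coprime q p := ((Nat.Prime.coprime_iff_not_dvd hpp).2 hp.1.2).symm
    have hpos : 0 < q * p := Nat.mul_pos hq0 hpp.pos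
    have h1 := totient_mul_div_ge (k0 := k0) hpos
    have hp1 : (1 : ℝ) < p := by exact_mod_cast hpp.one_lt
    have htot : ((q * p).totient : ℝ) = (q.totient : ℝ) * ((p : ℝ) - 1) := by
      rw [Nat.totient_mul hcop, Nat.totient_prime hpp]
      push_cast [Nat.cast_sub hpp.one_lt.le]
      ring
    rw [htot] at h1
    have hlp : 0 ≤ Real.log p := Real.log_natCast_nonneg p
    have h2 : (k0 : ℝ) / p - q.totient ≤ ((k0 / (q * p).totient : ℕ) : ℝ) * q.totient := by
      have hp0 : (0 : ℝ) < (p : ℝ) - 1 := by linarith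
      have h3 : (k0 : ℝ) / ((p : ℝ) - 1) - q.totient
          ≤ ((k0 / (q * p).totient : ℕ) : ℝ) * q.totient := by
        have h4 : ((k0 : ℝ) / ((p : ℝ) - 1) - q.totient) * ((p : ℝ) - 1)
            ≤ ((k0 / (q * p).totient : ℕ) : ℝ) * q.totient * ((p : ℝ) - 1) := by
          rw [sub_mul, div_mul_cancel₀ _ hp0.ne']
          linarith
        exact le_of_mul_le_mul_right h4 hp0
      have h5 : (k0 : ℝ) / p ≤ (k0 : ℝ) / ((p : ℝ) - 1) := by
        apply div_le_div_of_nonneg_left (Nat.cast_nonneg _) hp0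
        linarith
      linarith
    calc (k0 : ℝ) * (Real.log p / p) - q.totient * Real.log p
        = ((k0 : ℝ) / p - q.totient) * Real.log p := by ring
      _ ≤ (((k0 / (q * p).totient : ℕ) : ℝ) * q.totient) * Real.log p :=
          mul_le_mul_of_nonneg_right h2 hlp
      _ = _ := by ring
  refine le_trans ?_ (sum_le_sum hpt)
  rw [sum_sub_distrib, ← mul_sum, ← mul_sum]
  -- the prime sum
  have hset : PPr (w r') x ⊆ (P2 Q q).filter (fun p => w r' < p) ∪ q.primeFactors := by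
    intro p hp
    rw [mem_PPr] at hp
    rw [mem_union, mem_filter, mem_P2, Nat.mem_primeFactors]
    by_cases hpq : p ∣ q
    · exact Or.inr ⟨hp.2, hpq, hq0.ne'⟩
    · exact Or.inl ⟨⟨⟨hp.1.2, hp.2⟩, hpq⟩, hp.1.1⟩
  have hsumA : ∑ p ∈ PPr (w r') x, Real.log p / (p : ℝ)
      ≤ ∑ p ∈ (P2 Q q).filter (fun p => w r' < p), Real.log p / (p : ℝ) + 1 := by
    have h0 : ∀ p : ℕ, 0 ≤ Real.log p / (p : ℝ) :=
      fun p => div_nonneg (Real.log_natCast_nonneg p) (Nat.cast_nonneg p)
    have h1 := sum_le_sum_of_subset_of_nonneg hset (f := fun p : ℕ => Real.log p / (p : ℝ))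
      (fun p _ _ => h0 p)
    have h2 : ∑ p ∈ (P2 Q q).filter (fun p => w r' < p) ∪ q.primeFactors, Real.log p / (p : ℝ)
        ≤ ∑ p ∈ (P2 Q q).filter (fun p => w r' < p), Real.log p / (p : ℝ)
          + ∑ p ∈ q.primeFactors, Real.log p / (p : ℝ) := by
      rw [← sum_union_inter]
      have : 0 ≤ ∑ p ∈ (P2 Q q).filter (fun p => w r' < p) ∩ q.primeFactors, Real.log p / (p : ℝ) :=
        sum_nonneg fun p _ => h0 p
      linarith
    have h3 := delta_le' hsq hwr' hq''.2.2 (hlog.trans (by exact_mod_cast hw (Nat.zero_le r')))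
    linarith
  have hsumB : ∑ p ∈ (P2 Q q).filter (fun p => w r' < p), Real.log p ≤ 2 * x := by
    refine le_trans ?_ (theta_le x)
    apply sum_le_sum_of_subset_of_nonneg
    · intro p hp
      rw [mem_filter] at hp
      unfold P2 at hp
      exact (mem_filter.1 hp.1).1
    · intro p _ _
      exact Real.log_natCast_nonneg p
  have hCx := hC (w r') x hwr' hx0
  have hlogx : Real.log Q - Real.log q - 1 ≤ Real.log x := by
    have h1 : Q < q * (x + 1) := by
      rw [hx]
      exact Nat.lt_mul_div_succ Q hq0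
    have h2 : Q ≤ 2 * (q * x) := by nlinarith
    have h3 : (Q : ℝ) ≤ 2 * (q * x) := by exact_mod_cast h2
    have hx' : (0 : ℝ) < x := by exact_mod_cast hx0
    have h4 := Real.log_le_log (by exact_mod_cast hQ0) h3
    rw [Real.log_mul (by norm_num) (by positivity), Real.log_mul hq0'.ne' hx'.ne'] at h4
    have h5 := Real.log_two_lt_d9
    linarith
  have hphi : (q.totient : ℝ) * (2 * x) ≤ 2 * Q := by
    have h1 : (q.totient : ℝ) ≤ q := by exact_mod_cast Nat.totient_le q
    have h2 : (q : ℝ) * x ≤ Q := by exact_mod_cast Nat.mul_div_le Q q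
    have h3 : (0 : ℝ) ≤ x := Nat.cast_nonneg x
    nlinarith
  have hk0 : (0 : ℝ) ≤ k0 := Nat.cast_nonneg _
  have hA : (k0 : ℝ) * (Real.log Q - Real.log q - Real.log (w r') - C - 2)
      ≤ k0 * ∑ p ∈ (P2 Q q).filter (fun p => w r' < p), Real.log p / (p : ℝ) := by
    apply mul_le_mul_of_nonneg_left _ hk0
    linarith
  have hB : (q.totient : ℝ) * ∑ p ∈ (P2 Q q).filter (fun p => w r' < p), Real.log p
      ≤ 2 * Q :=
    (mul_le_mul_of_nonneg_left hsumB (Nat.cast_nonneg _)).trans hphi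
  linarith

/-- The bound for the volume in round `r`. -/
theorem LV_le {n Q k0 J r : ℕ} {w : ℕ → ℕ} (hw : Monotone w) (hw0 : 0 < w 0) {C : ℝ}
    (hC : ∀ w x : ℕ, 0 < w → 0 < x →
      Real.log x - Real.log w - C ≤ ∑ p ∈ PPr w x, Real.log p / p)
    (hr : r < J) (hk : 5 * J * Q ≤ k0) (hkn : k0 * J ≤ n) (hL : 2 ≤ Real.log n)
    (hH2 : Real.log n - Real.log k0 - Real.log Q + C + 5 ≤ Real.log (w 0))
    (hH3 : Real.log n ≤ w 0) (μ : ℕ → ℕ) (h1 : ∀ d, mu Q k0 w r d ≤ μ d)
    {q : ℕ} (hlt : μ q < mu Q k0 w (r + 1) q) :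
    LV n Q q μ ≤ k0 * (2 * ∑ r' ∈ range r, Real.log (w r') + 3 * Real.log n) := by
  have hqr : q ∈ RR Q w r := by
    by_contra hcon
    have h3 := mu_succ Q k0 w r q
    rw [if_neg hcon, add_zero] at h3
    have := h1 q
    omega
  have hq' := mem_RR.1 hqr
  have hq0 : 0 < q := hq'.1.1
  have hsq := hq'.2.1
  have hq0' : (0 : ℝ) < q := by exact_mod_cast hq0
  have hQ0 : 0 < Q := lt_of_lt_of_le hq0 hq'.1.2
  have hJ0 : 0 < J := by omega
  have hQk : Q ≤ k0 := by nlinarith [Nat.mul_pos hJ0 hQ0]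
  have hk0 : 0 < k0 := lt_of_lt_of_le hQ0 hQk
  have hkn' : k0 ≤ n := by nlinarith
  have hn0 : 0 < n := lt_of_lt_of_le hk0 hkn'
  have hqn : q ≤ n := hq'.1.2.trans (hQk.trans hkn')
  have hk0' : (0 : ℝ) < k0 := by exact_mod_cast hk0
  have hlogq : Real.log q ≤ Real.log n := Real.log_le_log hq0' (by exact_mod_cast hqn)
  have hlogq0 : 0 ≤ Real.log q := Real.log_natCast_nonneg q
  have hφ : 0 < q.totient := Nat.totient_pos.2 hq0
  have hφ' : (0 : ℝ) < q.totient := by exact_mod_cast hφ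
  have hφQ : (q.totient : ℝ) ≤ Q := by exact_mod_cast (Nat.totient_le q).trans hq'.1.2
  -- the multiplicity
  have hmem : ∀ r' < r + 1, q ∈ RR Q w r' := fun r' hr' =>
    mem_RR_of_le hw (Nat.lt_succ_iff.1 hr') hqr
  have hmu1 : mu Q k0 w (r + 1) q = (k0 / q.totient) * (r + 1) := mu_eq_of_mem hmem
  have hXle : q.totient * (μ q + 1) ≤ k0 * (r + 1) := by
    calc q.totient * (μ q + 1) ≤ q.totient * ((k0 / q.totient) * (r + 1)) := by
          apply Nat.mul_le_mul_left
          omega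
      _ = (q.totient * (k0 / q.totient)) * (r + 1) := by ring
      _ ≤ k0 * (r + 1) := Nat.mul_le_mul_right _ (Nat.mul_div_le _ _)
  have hX1n : k0 * (r + 1) ≤ n := (Nat.mul_le_mul_left k0 hr).trans hkn
  set X : ℝ := (q.totient : ℝ) * (μ q + 1) with hX
  set X1 : ℝ := (k0 : ℝ) * (r + 1) with hX1
  have hXX1 : X ≤ X1 := by
    rw [hX, hX1]
    exact_mod_cast hXle
  have hXpos : 0 < X := by positivity
  have hX1pos : 0 < X1 := by positivity
  have hX1n' : X1 ≤ n := by
    rw [hX1]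
    exact_mod_cast hX1n
  have hn0' : (0 : ℝ) < n := by exact_mod_cast hn0
  have hjn : μ q + 1 ≤ n + 1 := by
    have : μ q + 1 ≤ q.totient * (μ q + 1) := Nat.le_mul_of_pos_left _ hφ
    omega
  -- the binomial coefficient
  have hch := log_choose_le (n + 1) (μ q + 1) (Nat.succ_pos _) hjn
  set δ := ∑ p ∈ q.primeFactors, Real.log p / ((p : ℝ) - 1) with hδ
  have hwr : w 0 ≤ w r := hw (Nat.zero_le r)
  have hδ1 : δ ≤ 1 := by
    apply delta_le hsq (lt_of_lt_of_le hw0 hwr) hq'.2.2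
    have : (w 0 : ℝ) ≤ w r := by exact_mod_cast hwr
    linarith
  have hδ0 : 0 ≤ δ := delta_nonneg q
  have hder := log_Nm_deriv hsq
  have hint := interaction_ge (k0 := k0) hqr μ h1
  have hdown := down_ge (k0 := k0) hw hqr
  have hup := up_ge (k0 := k0) hw hw0 hqr (hlogq.trans hH3) hC
  have hlogn1 : Real.log ((n + 1 : ℕ) : ℝ) ≤ Real.log n + 1 := by
    have h3 : ((n + 1 : ℕ) : ℝ) ≤ 2 * n := by
      push_cast
      have : (1 : ℝ) ≤ n := by exact_mod_cast hn0
      linarith
    have h4 := Real.log_le_log (by positivity) h3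
    rw [Real.log_mul (by norm_num) hn0'.ne'] at h4
    have := Real.log_two_lt_d9
    linarith
  have hlogjq : Real.log X ≤ Real.log ((μ q + 1 : ℕ) : ℝ) + Real.log q := by
    rw [← Real.log_mul (by positivity) hq0'.ne']
    apply Real.log_le_log hXpos
    rw [hX]
    push_cast
    have h3 : (q.totient : ℝ) ≤ q := by exact_mod_cast Nat.totient_le q
    have h4 : (0 : ℝ) ≤ (μ q : ℝ) + 1 := by positivity
    nlinarith
  have hA1 : 1 ≤ (Real.log n + 3) - Real.log X1 := by
    have := Real.log_le_log hX1pos hX1n'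
    linarith
  have hmono := xlog_mono hXpos hXX1 hA1
  have hlogX1 : Real.log k0 ≤ Real.log X1 := by
    apply Real.log_le_log hk0'
    rw [hX1]
    have : (0 : ℝ) ≤ r := Nat.cast_nonneg r
    nlinarith
  -- first part
  have hfirst : (q.totient : ℝ) * Real.log ((n + 1).choose (μ q + 1))
      - (μ q : ℝ) * Real.log (Nm q (derivative (cyclotomic q ℤ)))
      ≤ X1 * (Real.log n + 3 - Real.log k0) + Q * Real.log n := by
    have e1 : (q.totient : ℝ) * Real.log ((n + 1).choose (μ q + 1))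
        ≤ X * (Real.log n + 1 - Real.log ((μ q + 1 : ℕ) : ℝ) + 1) := by
      calc (q.totient : ℝ) * Real.log ((n + 1).choose (μ q + 1))
          ≤ q.totient * (((μ q + 1 : ℕ) : ℝ)
            * (Real.log ((n + 1 : ℕ) : ℝ) - Real.log ((μ q + 1 : ℕ) : ℝ) + 1)) :=
            mul_le_mul_of_nonneg_left hch hφ'.le
        _ = X * (Real.log ((n + 1 : ℕ) : ℝ) - Real.log ((μ q + 1 : ℕ) : ℝ) + 1) := by
            rw [hX]
            push_cast
            ring
        _ ≤ _ := by
            apply mul_le_mul_of_nonneg_left _ hXpos.le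
            linarith
    have e2 : (μ q : ℝ) * Real.log (Nm q (derivative (cyclotomic q ℤ)))
        = (X - q.totient) * (Real.log q - δ) := by
      rw [hder, hX]
      ring
    rw [e2]
    have e3 : X * (Real.log n + 1 - Real.log ((μ q + 1 : ℕ) : ℝ) + 1)
        - (X - q.totient) * (Real.log q - δ)
        = X * (Real.log n + 2 + δ - (Real.log ((μ q + 1 : ℕ) : ℝ) + Real.log q))
          + q.totient * (Real.log q - δ) := by ring
    have e4 : X * (Real.log n + 2 + δ - (Real.log ((μ q + 1 : ℕ) : ℝ) + Real.log q))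
        ≤ X * (Real.log n + 3 - Real.log X) := by
      apply mul_le_mul_of_nonneg_left _ hXpos.le
      linarith
    have e5 : (q.totient : ℝ) * (Real.log q - δ) ≤ Q * Real.log n := by
      have : Real.log q - δ ≤ Real.log n := by linarith
      calc (q.totient : ℝ) * (Real.log q - δ) ≤ q.totient * Real.log n :=
            mul_le_mul_of_nonneg_left this hφ'.le
        _ ≤ Q * Real.log n := mul_le_mul_of_nonneg_right hφQ (by linarith)
    have e6 : X1 * (Real.log n + 3 - Real.log X1) ≤ X1 * (Real.log n + 3 - Real.log k0) := by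
      apply mul_le_mul_of_nonneg_left _ hX1pos.le
      linarith
    linarith
  unfold LV
  -- final computation
  have hsumexp : ∑ r' ∈ range r, ((k0 : ℝ) * (Real.log Q - Real.log q - Real.log (w r') - C - 2)
      - 2 * Q) = r * (k0 * (Real.log Q - Real.log q - C - 2) - 2 * Q)
        - k0 * ∑ r' ∈ range r, Real.log (w r') := by
    rw [mul_sum, ← nsmul_eq_mul, ← card_range r, ← sum_const, card_range, ← sum_sub_distrib]
    apply sum_congr rfl
    intro r' _
    ring
  rw [hsumexp] at hup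
  have hSw : (r : ℝ) * Real.log (w 0) ≤ ∑ r' ∈ range r, Real.log (w r') := by
    rw [← nsmul_eq_mul]
    have := sum_le_sum (s := range r) (f := fun _ => Real.log (w 0))
      (g := fun r' => Real.log (w r')) (fun r' _ => by
        apply Real.log_le_log (by exact_mod_cast hw0)
        exact_mod_cast hw (Nat.zero_le r'))
    simpa using this
  have hr0 : (0 : ℝ) ≤ r := Nat.cast_nonneg r
  have hrk : (r : ℝ) * k0 * (Real.log n - Real.log k0 - Real.log Q + C + 5)
      ≤ k0 * ∑ r' ∈ range r, Real.log (w r') := by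
    calc (r : ℝ) * k0 * (Real.log n - Real.log k0 - Real.log Q + C + 5)
        ≤ r * k0 * Real.log (w 0) := by
          apply mul_le_mul_of_nonneg_left hH2
          positivity
      _ = k0 * (r * Real.log (w 0)) := by ring
      _ ≤ _ := mul_le_mul_of_nonneg_left hSw hk0'.le
  have hQr : (r : ℝ) * Q * Real.log q ≤ r * Q * Real.log n := by
    apply mul_le_mul_of_nonneg_left hlogq
    positivity
  have hQJ : ((r : ℝ) + 1) * Q ≤ k0 / 5 := by
    have h3 : 5 * ((r + 1) * Q) ≤ k0 := by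
      calc 5 * ((r + 1) * Q) ≤ 5 * (J * Q) := by
            apply Nat.mul_le_mul_left
            exact Nat.mul_le_mul_right Q hr
        _ = 5 * J * Q := by ring
        _ ≤ k0 := hk
    have h4 : 5 * (((r : ℝ) + 1) * Q) ≤ k0 := by exact_mod_cast h3
    linarith
  have hQ0' : (0 : ℝ) ≤ Q := Nat.cast_nonneg Q
  have hlogk0 : 0 ≤ Real.log k0 := Real.log_natCast_nonneg k0
  have hfin1 : (q.totient : ℝ) * Real.log ((n + 1).choose (μ q + 1))
      - (μ q : ℝ) * Real.log (Nm q (derivative (cyclotomic q ℤ)))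
      - ∑ d ∈ (Icc 1 Q).erase q, (μ d : ℝ) * Real.log (Nm q (cyclotomic d ℤ))
      ≤ X1 * (Real.log n + 3 - Real.log k0) + Q * Real.log n
        - (r : ℝ) * (k0 - Q) * Real.log q
        - (r * (k0 * (Real.log Q - Real.log q - C - 2) - 2 * Q)
        - k0 * ∑ r' ∈ range r, Real.log (w r')) := by
    linarith
  refine hfin1.trans ?_
  have hfin2 : X1 * (Real.log n + 3 - Real.log k0) + Q * Real.log n
        - (r : ℝ) * (k0 - Q) * Real.log q
        - (r * (k0 * (Real.log Q - Real.log q - C - 2) - 2 * Q)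
        - k0 * ∑ r' ∈ range r, Real.log (w r'))
      = r * k0 * (Real.log n - Real.log k0 - Real.log Q + C + 5)
        + k0 * (Real.log n + 3 - Real.log k0) + Q * Real.log n + r * Q * Real.log q + 2 * (r * Q)
        + k0 * ∑ r' ∈ range r, Real.log (w r') := by
    rw [hX1]
    ring
  rw [hfin2]
  have hfin3 : (Q : ℝ) * Real.log n + r * Q * Real.log n + 2 * (r * Q)
      ≤ (((r : ℝ) + 1) * Q) * (Real.log n + 2) := by nlinarith
  have hfin4 : (((r : ℝ) + 1) * Q) * (Real.log n + 2) ≤ k0 / 5 * (Real.log n + 2) :=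
    mul_le_mul_of_nonneg_right hQJ (by linarith)
  have hfin5 : (k0 : ℝ) * (Real.log n + 3 - Real.log k0) + k0 / 5 * (Real.log n + 2)
      ≤ k0 * (3 * Real.log n) := by
    have : Real.log n + 3 - Real.log k0 + (Real.log n + 2) / 5 ≤ 3 * Real.log n := by
      linarith
    calc (k0 : ℝ) * (Real.log n + 3 - Real.log k0) + k0 / 5 * (Real.log n + 2)
        = k0 * (Real.log n + 3 - Real.log k0 + (Real.log n + 2) / 5) := by ring
      _ ≤ _ := mul_le_mul_of_nonneg_left this hk0'.le
  have hfin6 : (k0 : ℝ) * (2 * ∑ r' ∈ range r, Real.log (w r') + 3 * Real.log n)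
      = k0 * ∑ r' ∈ range r, Real.log (w r') + k0 * ∑ r' ∈ range r, Real.log (w r')
        + k0 * (3 * Real.log n) := by ring
  rw [hfin6]
  linarith

end

end Pool.Agent.H35.V1
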